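import Mathlib

/-!
Definitions for MP_f992e4_an: functions on the cube `ι → {1, -1}` with an arbitrary finite set `ι`
of coordinates, their Fourier coefficients, variance, derivatives, and families of coordinates
indexed by many-sorted structures.
-/

set_option autoImplicit false

namespace Pool.Agent.Hp22AAD

variable {ι : Type} [Fintype ι] [DecidableEq ι]

/-- Fourier coefficient `E[f(x) x^S]`. -/
noncomputable def coeff (f : (ι → ℤˣ) → ℝ) (S : Finset ι) : ℝ :=
  (∑ x : ι → ℤˣ, f x * ∏ i ∈ S, ((x i : ℤ) : ℝ)) / (2 : ℝ) ^ Fintype.card ι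

/-- Degree at most `d`. -/
def DegLE (f : (ι → ℤˣ) → ℝ) (d : ℕ) : Prop :=
  ∀ S : Finset ι, d < S.card → coeff f S = 0

/-- Variance. -/
noncomputable def variance (f : (ι → ℤˣ) → ℝ) : ℝ :=
  (∑ x : ι → ℤˣ, f x ^ 2) / (2 : ℝ) ^ Fintype.card ι -
    ((∑ x : ι → ℤˣ, f x) / (2 : ℝ) ^ Fintype.card ι) ^ 2

/-- Discrete derivative `D_j f`. -/
noncomputable def der (j : ι) (f : (ι → ℤˣ) → ℝ) (x : ι → ℤˣ) : ℝ :=
  (f (Function.update x j 1) - f (Function.update x j (-1))) / 2

/-- Sup norm. -/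
noncomputable def supNorm (f : (ι → ℤˣ) → ℝ) : ℝ := ⨆ x : ι → ℤˣ, |f x|

/-- `M(f)`, the largest of the `L²` norms of the derivatives. -/
noncomputable def maxDer (f : (ι → ℤˣ) → ℝ) : ℝ :=
  ⨆ j : ι, Real.sqrt ((∑ x : ι → ℤˣ, der j f x ^ 2) / (2 : ℝ) ^ Fintype.card ι)

/-- The largest of the `L¹` norms of the derivatives. -/
noncomputable def maxDerOne (f : (ι → ℤˣ) → ℝ) : ℝ :=
  ⨆ j : ι, (∑ x : ι → ℤˣ, |der j f x|) / (2 : ℝ) ^ Fintype.card ι

/-- The group of the permutations of `V` which preserve the sorts `τ : V → T`. -/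
def sortPerms {V T : Type} (τ : V → T) : Subgroup (Equiv.Perm V) where
  carrier := {σ | ∀ v, τ (σ v) = τ v}
  one_mem' := fun _ => rfl
  mul_mem' := by
    intro a b ha hb v
    rw [Equiv.Perm.mul_apply, ha, hb]
  inv_mem' := by
    intro a ha v
    have h := ha (a⁻¹ v)
    rw [← Equiv.Perm.mul_apply, mul_inv_cancel, Equiv.Perm.one_apply] at h
    exact h.symm

/-- The image of an `r`-element subset (an edge) under a permutation of the vertices. -/
def edgeMap {V : Type} {r : ℕ} (σ : Equiv.Perm V) (e : {e : Finset V // e.card = r}) :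
    {e : Finset V // e.card = r} :=
  ⟨e.1.map σ.toEmbedding, by rw [Finset.card_map]; exact e.2⟩

end Pool.Agent.Hp22AAD
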