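import Mathlib

/-!
The law of a colouring after a random permutation of the positions.
-/

set_option autoImplicit false
set_option linter.unusedSectionVars false

namespace Pool.Agent.Hp22AA

open Finset

/-- falling factorial -/
noncomputable def fall (x : ℝ) (k : ℕ) : ℝ := ∏ j ∈ range k, (x - j)

theorem fall_zero (x : ℝ) : fall x 0 = 1 := by simp [fall]

theorem fall_succ (x : ℝ) (k : ℕ) : fall x (k + 1) = fall x k * (x - k) := by
  simp [fall, prod_range_succ]

theorem fall_one_le {k : ℕ} (h : 2 ≤ k) : fall 1 k = 0 := by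
  unfold fall
  apply prod_eq_zero (i := 1) (by simp; omega)
  simp

theorem fall_zero_pos {k : ℕ} (h : 1 ≤ k) : fall 0 k = 0 := by
  unfold fall
  apply prod_eq_zero (i := 0) (by simp; omega)
  simp

theorem fall_pos {n k : ℕ} (h : k ≤ n) : 0 < fall (n : ℝ) k := by
  unfold fall
  apply prod_pos
  intro j hj
  have : j < n := lt_of_lt_of_le (mem_range.1 hj) h
  have : (j : ℝ) < n := by exact_mod_cast this
  linarith

variable {V : Type*} [Fintype V] [DecidableEq V] {C : Type*} [Fintype C] [DecidableEq C]

/-- permutations which fix all points outside `X` -/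
def KX (X : Finset V) : Finset (Equiv.Perm V) := univ.filter fun π => ∀ v, v ∉ X → π v = v

theorem mem_KX {X : Finset V} {π : Equiv.Perm V} : π ∈ KX X ↔ ∀ v, v ∉ X → π v = v := by
  simp [KX]

theorem KX_maps {X : Finset V} {π : Equiv.Perm V} (h : π ∈ KX X) {v : V} : π v ∈ X ↔ v ∈ X := by
  rw [mem_KX] at h
  constructor
  · intro hv
    by_contra hc
    rw [h v hc] at hv
    exact hc hv
  · intro hv
    by_contra hc
    have h2 := h _ hc
    have h3 := π.injective h2
    rw [h3] at hc
    exact hc hv

theorem one_mem_KX (X : Finset V) : (1 : Equiv.Perm V) ∈ KX X := by simp [mem_KX]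

theorem KX_card_pos (X : Finset V) : (0 : ℝ) < (KX X).card := by
  exact_mod_cast Finset.card_pos.2 ⟨1, one_mem_KX X⟩

/-- number of elements of `W` of colour `c` -/
def cnt (φ : V → C) (W : Finset V) (c : C) : ℕ := (W.filter fun v => φ v = c).card

theorem cnt_eq_sum (φ : V → C) (W : Finset V) (c : C) :
    (cnt φ W c : ℝ) = ∑ v ∈ W, if φ v = c then (1 : ℝ) else 0 := by
  rw [cnt, Finset.card_filter]
  push_cast
  rfl

/-- indicator of a prescribed colouring on `W` -/
noncomputable def ind (φ ω : V → C) (W : Finset V) (π : Equiv.Perm V) : ℝ :=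
  if ∀ v ∈ W, φ (π v) = ω v then 1 else 0

/-- number of permutations with the prescribed colouring on `W` -/
noncomputable def AA (X : Finset V) (φ ω : V → C) (W : Finset V) : ℝ :=
  ∑ π ∈ KX X, ind φ ω W π

theorem ind_insert (φ ω : V → C) (W : Finset V) (p : V) (π : Equiv.Perm V) :
    ind φ ω (insert p W) π = ind φ ω W π * (if φ (π p) = ω p then 1 else 0) := by
  unfold ind
  by_cases h : φ (π p) = ω p
  · simp [h]
  · simp [h]

theorem AA_step (X : Finset V) (φ ω : V → C) (W : Finset V) (hW : W ⊆ X) (p : V) (hp : p ∈ X)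
    (hpW : p ∉ W) :
    ((X.card : ℝ) - W.card) * AA X φ ω (insert p W) =
      ((cnt φ X (ω p) : ℝ) - cnt ω W (ω p)) * AA X φ ω W := by
  -- the double sum
  have h1 : ∑ π ∈ KX X, ind φ ω W π * ∑ q ∈ X \ W, (if φ (π q) = ω p then (1 : ℝ) else 0) =
      ((cnt φ X (ω p) : ℝ) - cnt ω W (ω p)) * AA X φ ω W := by
    rw [AA, Finset.mul_sum]
    refine Finset.sum_congr rfl fun π hπ => ?_
    by_cases hi : ∀ v ∈ W, φ (π v) = ω v
    · have h2 : ∑ q ∈ X, (if φ (π q) = ω p then (1 : ℝ) else 0) = cnt φ X (ω p) := by
        rw [cnt_eq_sum]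
        refine Finset.sum_bij' (fun q _ => π q) (fun q _ => π.symm q) ?_ ?_ ?_ ?_ ?_
        · intro q hq
          exact (KX_maps hπ).2 hq
        · intro q hq
          have := (KX_maps hπ (v := π.symm q))
          rw [Equiv.apply_symm_apply] at this
          exact this.1 hq
        · intro q _; simp
        · intro q _; simp
        · intro q _; rfl
      have h3 : ∑ q ∈ W, (if φ (π q) = ω p then (1 : ℝ) else 0) = cnt ω W (ω p) := by
        rw [cnt_eq_sum]
        exact Finset.sum_congr rfl fun q hq => by rw [hi q hq]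
      have h4 := Finset.sum_sdiff (f := fun q => if φ (π q) = ω p then (1 : ℝ) else 0) hW
      rw [h2, h3] at h4
      have h5 : ∑ q ∈ X \ W, (if φ (π q) = ω p then (1 : ℝ) else 0) =
          (cnt φ X (ω p) : ℝ) - cnt ω W (ω p) := by linarith
      rw [h5]; ring
    · have : ind φ ω W π = 0 := by
        unfold ind
        rw [if_neg hi]
      rw [this]; ring
  have h2 : ∑ π ∈ KX X, ind φ ω W π * ∑ q ∈ X \ W, (if φ (π q) = ω p then (1 : ℝ) else 0) =
      ∑ q ∈ X \ W, AA X φ ω (insert p W) := by
    simp only [Finset.mul_sum]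
    rw [Finset.sum_comm]
    refine Finset.sum_congr rfl fun q hq => ?_
    rw [AA]
    simp only [ind_insert]
    have hqX := (Finset.mem_sdiff.1 hq).1
    have hqW := (Finset.mem_sdiff.1 hq).2
    have hsw : ∀ v ∈ W, Equiv.swap p q v = v := by
      intro v hv
      apply Equiv.swap_apply_of_ne_of_ne
      · rintro rfl; exact hpW hv
      · rintro rfl; exact hqW hv
    have hK : ∀ π ∈ KX X, π * Equiv.swap p q ∈ KX X := by
      intro π hπ
      rw [mem_KX] at hπ ⊢
      intro v hv
      rw [Equiv.Perm.mul_apply, Equiv.swap_apply_of_ne_of_ne]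
      · exact hπ v hv
      · rintro rfl; exact hv hp
      · rintro rfl; exact hv hqX
    refine Finset.sum_bij' (fun π _ => π * Equiv.swap p q) (fun π _ => π * Equiv.swap p q)
      hK hK ?_ ?_ ?_
    · intro π _
      rw [mul_assoc, Equiv.swap_mul_self, mul_one]
    · intro π _
      rw [mul_assoc, Equiv.swap_mul_self, mul_one]
    · intro π _
      have h6 : ind φ ω W (π * Equiv.swap p q) = ind φ ω W π := by
        unfold ind
        have : (∀ v ∈ W, φ ((π * Equiv.swap p q) v) = ω v) ↔ ∀ v ∈ W, φ (π v) = ω v := by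
          refine forall₂_congr fun v hv => ?_
          rw [Equiv.Perm.mul_apply, hsw v hv]
        simp only [this]
      rw [h6, Equiv.Perm.mul_apply, Equiv.swap_apply_left]
  rw [← h1, h2, Finset.sum_const, nsmul_eq_mul, Finset.card_sdiff_of_subset hW,
    Nat.cast_sub (Finset.card_le_card hW)]

theorem AA_closed (X : Finset V) (φ ω : V → C) (W : Finset V) (hW : W ⊆ X) :
    AA X φ ω W * fall X.card W.card =
      (KX X).card * ∏ c, fall (cnt φ X c) (cnt ω W c) := by
  induction W using Finset.induction_on with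
  | empty => simp [AA, ind, fall_zero, cnt]
  | insert p W hp ih =>
    have hW' : W ⊆ X := (Finset.subset_insert p W).trans hW
    have hpX : p ∈ X := hW (Finset.mem_insert_self p W)
    have h1 := AA_step X φ ω W hW' p hpX hp
    have h2 := ih hW'
    rw [Finset.card_insert_of_notMem hp, fall_succ]
    have h3 : ∏ c, fall (cnt φ X c) (cnt ω (insert p W) c) =
        (∏ c, fall (cnt φ X c) (cnt ω W c)) * ((cnt φ X (ω p) : ℝ) - cnt ω W (ω p)) := by
      have h4 : ∀ c, cnt ω (insert p W) c = cnt ω W c + if c = ω p then 1 else 0 := by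
        intro c
        unfold cnt
        rw [Finset.filter_insert]
        by_cases hc : ω p = c
        · rw [if_pos hc, if_pos hc.symm, Finset.card_insert_of_notMem]
          simp [hp]
        · rw [if_neg hc, if_neg (Ne.symm hc), add_zero]
      have h5 : ∀ c, fall (cnt φ X c) (cnt ω (insert p W) c) =
          fall (cnt φ X c) (cnt ω W c) * (if c = ω p then ((cnt φ X c : ℝ) - cnt ω W c) else 1) := by
        intro c
        rw [h4 c]
        by_cases hc : c = ω p
        · rw [if_pos hc, if_pos hc, fall_succ]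
        · rw [if_neg hc, if_neg hc, add_zero, mul_one]
      simp only [h5]
      rw [Finset.prod_mul_distrib, Finset.prod_ite_eq']
      simp
    rw [h3]
    calc AA X φ ω (insert p W) * (fall X.card W.card * ((X.card : ℝ) - W.card))
        = (((X.card : ℝ) - W.card) * AA X φ ω (insert p W)) * fall X.card W.card := by ring
      _ = ((cnt φ X (ω p) : ℝ) - cnt ω W (ω p)) * (AA X φ ω W * fall X.card W.card) := by
          rw [h1]; ring
      _ = _ := by rw [h2]; ring

/-- Average over the subsets of size `s` of the indicator of avoiding `T`. -/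
theorem choose_fall (N s k : ℕ) (hk : k ≤ N) :
    ((N - k).choose s : ℝ) * fall N k = (N.choose s : ℝ) * fall ((N : ℝ) - s) k := by
  induction k with
  | zero => simp [fall_zero]
  | succ k ih =>
    have h1 := ih (by omega)
    rw [fall_succ, fall_succ]
    have h2 : ((N - (k + 1)).choose s : ℝ) * ((N : ℝ) - k) =
        ((N - k).choose s : ℝ) * ((N : ℝ) - s - k) := by
      -- `(M - 1).choose s * M = M.choose s * (M - s)` with `M = N - k`
      obtain ⟨M, hM⟩ : ∃ M, N = M + 1 + k := ⟨N - 1 - k, by omega⟩
      have e1 : N - (k + 1) = M := by omega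
      have e2 : N - k = M + 1 := by omega
      rw [e1, e2]
      have h3 := Nat.choose_mul_succ_eq M s
      have h4 : (N : ℝ) = M + 1 + k := by rw [hM]; push_cast; ring
      rw [h4]
      by_cases hsM : s ≤ M + 1
      · have h5 : ((M + 1 - s : ℕ) : ℝ) = (M : ℝ) + 1 - s := by
          rw [Nat.cast_sub hsM]; push_cast; ring
        have h6 : ((M.choose s : ℕ) : ℝ) * ((M : ℝ) + 1) =
            ((M + 1).choose s : ℝ) * ((M : ℝ) + 1 - s) := by
          rw [← h5]
          exact_mod_cast h3
        calc ((M.choose s : ℕ) : ℝ) * ((M : ℝ) + 1 + k - k)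
            = (M.choose s : ℝ) * ((M : ℝ) + 1) := by ring
          _ = ((M + 1).choose s : ℝ) * ((M : ℝ) + 1 - s) := h6
          _ = _ := by ring
      · push Not at hsM
        rw [Nat.choose_eq_zero_of_lt (by omega), Nat.choose_eq_zero_of_lt hsM]
        simp
    calc ((N - (k + 1)).choose s : ℝ) * (fall N k * ((N : ℝ) - k))
        = fall N k * (((N - (k + 1)).choose s : ℝ) * ((N : ℝ) - k)) := by ring
      _ = (((N - k).choose s : ℝ) * fall N k) * ((N : ℝ) - s - k) := by rw [h2]; ring
      _ = _ := by rw [h1]; ring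

end Pool.Agent.Hp22AA
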