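import Mathlib

/-!
Polynomials bounded at the integers `1, …, n` and vanishing at `0`.
-/

set_option autoImplicit false

namespace Pool.Agent.Hp22AA

open Finset Polynomial

/-- Markov's inequality at the end point `1` of `[-1, 1]` (both signs). -/
theorem markov_end (d : ℕ) (P : ℝ[X]) (hP : P.degree ≤ d) (B : ℝ)
    (hB : ∀ t ∈ Set.Icc (-1 : ℝ) 1, |P.eval t| ≤ B) :
    (derivative P).eval 1 ≤ (d : ℝ) ^ 2 * B := by
  have hB0 : 0 ≤ B := (abs_nonneg _).trans (hB 0 ⟨by norm_num, by norm_num⟩)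
  rcases hB0.eq_or_lt with h0 | hpos
  · -- `P` vanishes on an interval
    have hz : P = 0 := by
      apply Polynomial.eq_zero_of_infinite_isRoot
      apply Set.Infinite.mono (s := Set.Icc (-1 : ℝ) 1)
      · intro t ht
        have := hB t ht
        rw [← h0] at this
        exact abs_nonpos_iff.1 this
      · exact Set.Icc_infinite (by norm_num)
    rw [hz, ← h0]
    simp
  · have h1 : (derivative^[1] (C B⁻¹ * P)).eval 1 ≤ (derivative^[1] (Chebyshev.T ℝ d)).eval 1 := by
      apply Polynomial.Chebyshev.eval_iterate_derivative_le_of_forall_abs_le_one le_rfl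
      · rw [Polynomial.degree_C_mul (inv_ne_zero hpos.ne')]
        exact hP
      · intro t ht
        rw [eval_mul, eval_C, abs_mul, abs_of_pos (inv_pos.2 hpos)]
        rw [inv_mul_le_iff₀ hpos, mul_one]
        exact hB t ht
    simp only [Function.iterate_one] at h1
    have h2 : (derivative (Chebyshev.T ℝ d)).eval 1 = (d : ℝ) ^ 2 := by
      rw [Polynomial.Chebyshev.T_derivative_eq_U, eval_mul, Polynomial.Chebyshev.U_eval_one]
      simp
      ring
    rw [h2, derivative_C_mul, eval_mul, eval_C] at h1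
    rw [inv_mul_le_iff₀ hpos] at h1
    linarith

/-- Markov's inequality at an end point `y` of the segment between `x` and `y`. -/
theorem markov_seg (d : ℕ) (P : ℝ[X]) (hP : P.degree ≤ d) (B : ℝ) (x y : ℝ) (hxy : x ≠ y)
    (hB : ∀ t ∈ Set.uIcc x y, |P.eval t| ≤ B) :
    |(derivative P).eval y| ≤ 2 / |y - x| * ((d : ℝ) ^ 2 * B) := by
  -- the affine map from `[-1, 1]` onto the segment
  have key : ∀ Q : ℝ[X], Q.degree ≤ d → (∀ t ∈ Set.uIcc x y, |Q.eval t| ≤ B) →
      (y - x) / 2 * (derivative Q).eval y ≤ (d : ℝ) ^ 2 * B := by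
    intro Q hQ hQB
    set L : ℝ[X] := C ((y - x) / 2) * X + C ((x + y) / 2) with hL
    have hL1 : L.eval 1 = y := by simp [hL]; ring
    have hLd : L.natDegree ≤ 1 := by
      rw [hL]
      exact Polynomial.natDegree_linear_le
    have h := markov_end d (Q.comp L) ?_ B ?_
    · rw [Polynomial.derivative_comp, eval_mul, eval_comp, hL1] at h
      have h2 : (derivative L).eval 1 = (y - x) / 2 := by simp [hL]
      rw [h2] at h
      exact h
    · refine Polynomial.degree_le_of_natDegree_le ?_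
      refine Polynomial.natDegree_comp_le.trans ?_
      have h3 : Q.natDegree ≤ d := Polynomial.natDegree_le_of_degree_le hQ
      calc Q.natDegree * L.natDegree ≤ d * 1 := Nat.mul_le_mul h3 hLd
        _ = d := mul_one d
    · intro t ht
      rw [eval_comp]
      apply hQB
      have h4 : L.eval t = (1 - (1 + t) / 2) * x + (1 + t) / 2 * y := by simp [hL]; ring
      rw [h4]
      have h5 := Convex.sum_mem (convex_uIcc x y) (t := (Finset.univ : Finset (Fin 2)))
        (w := ![1 - (1 + t) / 2, (1 + t) / 2]) (z := ![x, y])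
      have h6 := h5 ?_ ?_ ?_
      · simpa [Fin.sum_univ_two] using h6
      · intro i _
        fin_cases i
        · simp; linarith [ht.2]
        · simp; linarith [ht.1]
      · simp [Fin.sum_univ_two]
      · intro i _
        fin_cases i
        · simp
        · simp
  have h1 := key P hP hB
  have h2 := key (-P) (by rw [Polynomial.degree_neg]; exact hP) (by
    intro t ht
    rw [eval_neg, abs_neg]
    exact hB t ht)
  rw [derivative_neg, eval_neg] at h2
  have h3 : |(y - x) / 2 * (derivative P).eval y| ≤ (d : ℝ) ^ 2 * B := by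
    rw [abs_le]
    constructor <;> linarith
  rw [abs_mul, abs_div, abs_two] at h3
  have h4 : 0 < |y - x| := abs_pos.2 (sub_ne_zero.2 (Ne.symm hxy))
  rw [div_mul_eq_mul_div, le_div_iff₀ h4]
  rw [div_mul_eq_mul_div, div_le_iff₀ (by norm_num)] at h3
  linarith

/-- Markov's inequality in the interior, with a factor `2`. -/
theorem markov_in (d : ℕ) (P : ℝ[X]) (hP : P.degree ≤ d) (B : ℝ) (a b : ℝ) (hab : a < b)
    (hB : ∀ t ∈ Set.Icc a b, |P.eval t| ≤ B) (y : ℝ) (hy : y ∈ Set.Icc a b) :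
    |(derivative P).eval y| ≤ 4 / (b - a) * ((d : ℝ) ^ 2 * B) := by
  have hB0 : 0 ≤ B := (abs_nonneg _).trans (hB y hy)
  have hba : 0 < b - a := sub_pos.2 hab
  have hX : 0 ≤ (d : ℝ) ^ 2 * B := by positivity
  rcases le_total ((a + b) / 2) y with h | h
  · have h1 := markov_seg d P hP B a y (by intro h2; subst h2; linarith) (by
      intro t ht
      rw [Set.uIcc_of_le hy.1] at ht
      exact hB t ⟨ht.1, ht.2.trans hy.2⟩)
    refine h1.trans (mul_le_mul_of_nonneg_right ?_ hX)
    rw [abs_of_nonneg (by linarith [hy.1] : (0 : ℝ) ≤ y - a)]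
    rw [div_le_div_iff₀ (by linarith) hba]
    linarith
  · have h1 := markov_seg d P hP B b y (by intro h2; subst h2; linarith) (by
      intro t ht
      rw [Set.uIcc_of_ge hy.2] at ht
      exact hB t ⟨hy.1.trans ht.1, ht.2⟩)
    refine h1.trans (mul_le_mul_of_nonneg_right ?_ hX)
    rw [abs_of_nonpos (by linarith [hy.2] : y - b ≤ 0)]
    rw [div_le_div_iff₀ (by linarith) hba]
    linarith

/-- A polynomial of degree at most `d`, zero at `0` and bounded by `B` at `1, …, n`, is at most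
`8 d² B / n` at `1`. -/
theorem small_at_one (d n : ℕ) (hn : 1 ≤ n) (P : ℝ[X]) (hP : P.degree ≤ d) (h0 : P.eval 0 = 0)
    (B : ℝ) (hB : ∀ j : ℕ, 1 ≤ j → j ≤ n → |P.eval (j : ℝ)| ≤ B) :
    |P.eval 1| ≤ 8 * (d : ℝ) ^ 2 / n * B := by
  have hB0 : 0 ≤ B := (abs_nonneg _).trans (hB 1 le_rfl hn)
  have hn0 : (0 : ℝ) < n := by exact_mod_cast hn
  have hint : ∀ j : ℕ, j ≤ n → |P.eval (j : ℝ)| ≤ B := by
    intro j hj
    rcases Nat.eq_zero_or_pos j with h | h
    · subst h
      simpa [h0] using hB0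
    · exact hB j h hj
  by_cases hc : 4 * (d : ℝ) ^ 2 ≤ n
  · -- the maximum on `[0, n]`
    obtain ⟨y, hy, hmax⟩ := IsCompact.exists_isMaxOn (isCompact_Icc (a := (0 : ℝ)) (b := (n : ℝ)))
      ⟨0, by simp⟩ (f := fun t => |P.eval t|) (by fun_prop)
    set K := |P.eval y| with hK
    have hKt : ∀ t ∈ Set.Icc (0 : ℝ) n, |P.eval t| ≤ K := fun t ht => hmax ht
    have hder : ∀ t ∈ Set.Icc (0 : ℝ) n, |(derivative P).eval t| ≤ 4 * (d : ℝ) ^ 2 / n * K := by
      intro t ht
      have h := markov_in d P hP K 0 n hn0 hKt t ht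
      rw [sub_zero] at h
      calc _ ≤ _ := h
        _ = _ := by ring
    have hlip : ∀ s ∈ Set.Icc (0 : ℝ) n, ∀ t ∈ Set.Icc (0 : ℝ) n,
        |P.eval t - P.eval s| ≤ 4 * (d : ℝ) ^ 2 / n * K * |t - s| := by
      intro s hs t ht
      have h := Convex.norm_image_sub_le_of_norm_hasDerivWithin_le (f := fun t => P.eval t)
        (f' := fun t => (derivative P).eval t) (s := Set.Icc (0 : ℝ) n)
        (C := 4 * (d : ℝ) ^ 2 / n * K) (x := s) (y := t)
        (fun z _ => (P.hasDerivAt z).hasDerivWithinAt)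
        (fun z hz => by rw [Real.norm_eq_abs]; exact hder z hz) (convex_Icc 0 (n : ℝ)) hs ht
      rw [Real.norm_eq_abs, Real.norm_eq_abs] at h
      exact h
    have hc' : 4 * (d : ℝ) ^ 2 / n ≤ 1 := by rw [div_le_one hn0]; exact hc
    have hK0 : 0 ≤ K := abs_nonneg _
    -- the nearest integer
    have hyr : ∃ j : ℕ, j ≤ n ∧ |y - j| ≤ 1 / 2 := by
      refine ⟨⌊y + 1 / 2⌋₊, ?_, ?_⟩
      · have : ⌊y + 1 / 2⌋₊ < n + 1 := by
          rw [Nat.floor_lt (by linarith [hy.1])]
          push_cast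
          linarith [hy.2]
        omega
      · have h1 := Nat.floor_le (a := y + 1 / 2) (by linarith [hy.1])
        have h2 := Nat.lt_floor_add_one (y + 1 / 2)
        rw [abs_le]
        constructor <;> linarith
    obtain ⟨j, hj, hyj⟩ := hyr
    have hj' : (j : ℝ) ∈ Set.Icc (0 : ℝ) n := ⟨by positivity, by exact_mod_cast hj⟩
    have h1 := hlip j hj' y hy
    have h2 : K ≤ 2 * B := by
      have h3 : K ≤ |P.eval y - P.eval (j : ℝ)| + |P.eval (j : ℝ)| := by
        have := abs_add_le (P.eval y - P.eval (j : ℝ)) (P.eval (j : ℝ))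
        simpa [hK] using this
      have h4 := hint j hj
      have h5 : 4 * (d : ℝ) ^ 2 / n * K * |y - j| ≤ 1 * K * (1 / 2) := by
        gcongr
      linarith
    have h6 := hlip 0 ⟨le_rfl, hn0.le⟩ 1 ⟨by norm_num, by exact_mod_cast hn⟩
    rw [h0, sub_zero, sub_zero, abs_one, mul_one] at h6
    calc |P.eval 1| ≤ 4 * (d : ℝ) ^ 2 / n * K := h6
      _ ≤ 4 * (d : ℝ) ^ 2 / n * (2 * B) := by gcongr
      _ = _ := by ring
  · have h1 := hB 1 le_rfl hn
    rw [Nat.cast_one] at h1
    have h2 : 1 ≤ 8 * (d : ℝ) ^ 2 / n := by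
      rw [one_le_div hn0]
      push Not at hc
      nlinarith [sq_nonneg (d : ℝ)]
    nlinarith

end Pool.Agent.Hp22AA
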