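import Mathlib
import Pool.Agent.Hp22AA.Defs
import Pool.Agent.Hp22AA.Cube
import Pool.Agent.Hp22AA.Poly
import Pool.Agent.Hp22AA.Law

/-!
Cloning a vertex: the effect on an invariant function of a change of the coordinates which
involve a given vertex.
-/

set_option autoImplicit false
set_option linter.unusedSectionVars false

namespace Pool.Agent.Hp22AA

open Finset Polynomial Pool.Agent.Hp22AAD

variable {V T : Type} [Fintype V] [DecidableEq V] [DecidableEq T] {τ : V → T}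
variable {ι : Type} [Fintype ι] [DecidableEq ι]

/-- pull-back of an assignment along a map of the vertices -/
noncomputable def pb (ρ : sortPerms τ →* Equiv.Perm ι) (supp : ι → Finset V) (ψ : V → V)
    (y : ι → ℤˣ) (i : ι) : ℤˣ := by
  classical
  exact if h : ∃ σ : sortPerms τ, ∀ v ∈ supp i, (σ : Equiv.Perm V) v = ψ v then
    y (ρ h.choose i) else 1

variable {ρ : sortPerms τ →* Equiv.Perm ι} {supp : ι → Finset V}

theorem act_eq (h2 : ∀ (σ : sortPerms τ) i, (∀ v ∈ supp i, (σ : Equiv.Perm V) v = v) → ρ σ i = i)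
    (σ σ' : sortPerms τ) (i : ι)
    (h : ∀ v ∈ supp i, (σ : Equiv.Perm V) v = (σ' : Equiv.Perm V) v) : ρ σ i = ρ σ' i := by
  have h3 := h2 (σ'⁻¹ * σ) i (by
    intro v hv
    rw [Subgroup.coe_mul, Equiv.Perm.mul_apply, h v hv, Subgroup.coe_inv]
    simp)
  rw [map_mul, Equiv.Perm.mul_apply, map_inv] at h3
  rw [Equiv.Perm.inv_eq_iff_eq] at h3
  exact h3

theorem pb_eq (h2 : ∀ (σ : sortPerms τ) i, (∀ v ∈ supp i, (σ : Equiv.Perm V) v = v) → ρ σ i = i)
    (ψ : V → V) (y : ι → ℤˣ) (i : ι) (σ : sortPerms τ)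
    (h : ∀ v ∈ supp i, (σ : Equiv.Perm V) v = ψ v) : pb ρ supp ψ y i = y (ρ σ i) := by
  have hex : ∃ σ : sortPerms τ, ∀ v ∈ supp i, (σ : Equiv.Perm V) v = ψ v := ⟨σ, h⟩
  unfold pb
  rw [dif_pos hex, act_eq h2 hex.choose σ i]
  intro v hv
  rw [hex.choose_spec v hv, h v hv]

theorem pb_one (ψ : V → V) (y : ι → ℤˣ) (i : ι)
    (h : ¬ ∃ σ : sortPerms τ, ∀ v ∈ supp i, (σ : Equiv.Perm V) v = ψ v) :
    pb ρ supp ψ y i = 1 := by
  unfold pb
  rw [dif_neg h]

theorem pb_congr (h2 : ∀ (σ : sortPerms τ) i, (∀ v ∈ supp i, (σ : Equiv.Perm V) v = v) → ρ σ i = i)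
    (ψ ψ' : V → V) (y : ι → ℤˣ) (i : ι) (h : ∀ v ∈ supp i, ψ v = ψ' v) :
    pb ρ supp ψ y i = pb ρ supp ψ' y i := by
  by_cases hex : ∃ σ : sortPerms τ, ∀ v ∈ supp i, (σ : Equiv.Perm V) v = ψ v
  · obtain ⟨σ, hσ⟩ := hex
    rw [pb_eq h2 ψ y i σ hσ, pb_eq h2 ψ' y i σ fun v hv => by rw [hσ v hv, h v hv]]
  · rw [pb_one ψ y i hex, pb_one ψ' y i]
    rintro ⟨σ, hσ⟩
    exact hex ⟨σ, fun v hv => by rw [hσ v hv, h v hv]⟩

theorem pb_id (h2 : ∀ (σ : sortPerms τ) i, (∀ v ∈ supp i, (σ : Equiv.Perm V) v = v) → ρ σ i = i)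
    (ψ : V → V) (hψ : ∀ v, ψ v = v) (y : ι → ℤˣ) : pb ρ supp ψ y = y := by
  funext i
  rw [pb_eq h2 ψ y i 1]
  · simp
  · intro v _
    simp [hψ]

theorem pb_comp (h1 : ∀ (σ : sortPerms τ) i, supp (ρ σ i) = (supp i).image (σ : Equiv.Perm V))
    (h2 : ∀ (σ : sortPerms τ) i, (∀ v ∈ supp i, (σ : Equiv.Perm V) v = v) → ρ σ i = i)
    (ψ : V → V) (π : sortPerms τ) (y : ι → ℤˣ) (i : ι) :
    pb ρ supp (fun v => ψ ((π : Equiv.Perm V) v)) y i = pb ρ supp ψ y (ρ π i) := by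
  by_cases hex : ∃ σ : sortPerms τ, ∀ v ∈ supp (ρ π i), (σ : Equiv.Perm V) v = ψ v
  · obtain ⟨σ, hσ⟩ := hex
    rw [pb_eq h2 ψ y (ρ π i) σ hσ, pb_eq h2 _ y i (σ * π)]
    · rw [map_mul, Equiv.Perm.mul_apply]
    · intro v hv
      rw [Subgroup.coe_mul, Equiv.Perm.mul_apply]
      apply hσ
      rw [h1]
      exact Finset.mem_image_of_mem _ hv
  · rw [pb_one ψ y _ hex, pb_one]
    rintro ⟨σ, hσ⟩
    apply hex
    refine ⟨σ * π⁻¹, ?_⟩
    intro v hv
    rw [h1, Finset.mem_image] at hv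
    obtain ⟨w, hw, rfl⟩ := hv
    have h3 : ((σ * π⁻¹ : sortPerms τ) : Equiv.Perm V) ((π : Equiv.Perm V) w) =
        (σ : Equiv.Perm V) w := by
      rw [← Equiv.Perm.mul_apply, ← Subgroup.coe_mul, inv_mul_cancel_right]
    rw [h3]
    exact hσ w hw

/-- where two pull-backs differ -/
theorem pb_ne (h1 : ∀ (σ : sortPerms τ) i, supp (ρ σ i) = (supp i).image (σ : Equiv.Perm V))
    (h2 : ∀ (σ : sortPerms τ) i, (∀ v ∈ supp i, (σ : Equiv.Perm V) v = v) → ρ σ i = i)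
    (ψ : V → V) (y y' : ι → ℤˣ) (Q : Finset V) (hyy : ∀ i, ¬ (Q ⊆ supp i) → y i = y' i) (i : ι)
    (h : pb ρ supp ψ y i ≠ pb ρ supp ψ y' i) : Q ⊆ (supp i).image ψ := by
  by_cases hex : ∃ σ : sortPerms τ, ∀ v ∈ supp i, (σ : Equiv.Perm V) v = ψ v
  · obtain ⟨σ, hσ⟩ := hex
    rw [pb_eq h2 ψ y i σ hσ, pb_eq h2 ψ y' i σ hσ] at h
    by_contra hc
    apply h
    apply hyy
    rw [h1]
    have : (supp i).image (σ : Equiv.Perm V) = (supp i).image ψ :=
      Finset.image_congr fun v hv => hσ v hv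
    rw [this]
    exact hc
  · rw [pb_one ψ y i hex, pb_one ψ y' i hex] at h
    exact absurd rfl h

/-- the vertices of the class of `p` -/
def cls (τ : V → T) (p : V) : Finset V := univ.filter fun v => τ v = τ p

theorem mem_cls {p v : V} : v ∈ cls τ p ↔ τ v = τ p := by simp [cls]

theorem KX_sort {p : V} {π : Equiv.Perm V} (h : π ∈ KX (cls τ p)) : π ∈ sortPerms τ := by
  intro v
  by_cases hv : v ∈ cls τ p
  · have h2 := (KX_maps h).2 hv
    rw [mem_cls] at hv h2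
    rw [hv, h2]
  · rw [mem_KX.1 h v hv]

/-- the vertices in `A` become clones of `p` -/
def psi (p : V) (A : Finset V) (v : V) : V := if v ∈ A then p else v

/-- falling factorial as a polynomial -/
noncomputable def fallP (k : ℕ) : ℝ[X] := ∏ j ∈ range k, (X - C (j : ℝ))

/-- falling factorial of `n - z` as a polynomial -/
noncomputable def fallN (n : ℝ) (k : ℕ) : ℝ[X] := ∏ j ∈ range k, (C n - X - C (j : ℝ))

theorem fallP_eval (k : ℕ) (z : ℝ) : (fallP k).eval z = fall z k := by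
  simp [fallP, fall, eval_prod]

theorem fallN_eval (n : ℝ) (k : ℕ) (z : ℝ) : (fallN n k).eval z = fall (n - z) k := by
  simp [fallN, fall, eval_prod]

theorem fallP_deg (k : ℕ) : (fallP k).natDegree ≤ k := by
  unfold fallP
  refine (natDegree_prod_le _ _).trans ?_
  calc ∑ j ∈ range k, (X - C (j : ℝ) : ℝ[X]).natDegree ≤ ∑ j ∈ range k, 1 := by
        refine Finset.sum_le_sum fun j _ => ?_
        rw [natDegree_X_sub_C]
    _ = k := by simp

theorem fallN_deg (n : ℝ) (k : ℕ) : (fallN n k).natDegree ≤ k := by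
  unfold fallN
  refine (natDegree_prod_le _ _).trans ?_
  calc ∑ j ∈ range k, (C n - X - C (j : ℝ) : ℝ[X]).natDegree ≤ ∑ j ∈ range k, 1 := by
        refine Finset.sum_le_sum fun j _ => ?_
        have : (C n - X - C (j : ℝ) : ℝ[X]) = C (-1) * X + C (n - j) := by
          simp only [map_neg, map_sub, map_one]; ring
        rw [this]
        exact natDegree_linear_le
    _ = k := by simp

section
variable (f : (ι → ℤˣ) → ℝ) (ρ supp)

/-- difference of a monomial at two pull-backs -/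
noncomputable def Del (y y' : ι → ℤˣ) (S : Finset ι) (ψ : V → V) : ℝ :=
  chi S (pb ρ supp ψ y) - chi S (pb ρ supp ψ y')

end

theorem Del_congr (h2 : ∀ (σ : sortPerms τ) i, (∀ v ∈ supp i, (σ : Equiv.Perm V) v = v) → ρ σ i = i)
    (y y' : ι → ℤˣ) (S : Finset ι) (ψ ψ' : V → V) (h : ∀ v ∈ S.biUnion supp, ψ v = ψ' v) :
    Del ρ supp y y' S ψ = Del ρ supp y y' S ψ' := by
  have h3 : ∀ i ∈ S, ∀ v ∈ supp i, ψ v = ψ' v := fun i hi v hv =>
    h v (Finset.mem_biUnion.2 ⟨i, hi, hv⟩)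
  have key : ∀ z, chi S (pb ρ supp ψ z) = chi S (pb ρ supp ψ' z) := by
    intro z
    unfold chi
    refine Finset.prod_congr rfl fun i hi => ?_
    rw [pb_congr h2 ψ ψ' z i (h3 i hi)]
  unfold Del
  rw [key y, key y']

theorem Del_zero (h1 : ∀ (σ : sortPerms τ) i, supp (ρ σ i) = (supp i).image (σ : Equiv.Perm V))
    (h2 : ∀ (σ : sortPerms τ) i, (∀ v ∈ supp i, (σ : Equiv.Perm V) v = v) → ρ σ i = i)
    (y y' : ι → ℤˣ) (p : V) (hyy : ∀ i, p ∉ supp i → y i = y' i)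
    (S : Finset ι) (ψ : V → V) (h : ∀ v ∈ S.biUnion supp, ψ v ≠ p) :
    Del ρ supp y y' S ψ = 0 := by
  unfold Del chi
  rw [sub_eq_zero]
  refine Finset.prod_congr rfl fun i hi => ?_
  by_contra hc
  have hne : pb ρ supp ψ y i ≠ pb ρ supp ψ y' i := fun h => hc (by rw [h])
  have h3 := pb_ne h1 h2 ψ y y' {p} (by
    intro i hi
    apply hyy
    rwa [Finset.singleton_subset_iff] at hi) i hne
  rw [Finset.singleton_subset_iff, Finset.mem_image] at h3
  obtain ⟨v, hv, hvp⟩ := h3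
  exact h v (Finset.mem_biUnion.2 ⟨i, hi, hv⟩) hvp

end Pool.Agent.Hp22AA
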