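import Mathlib
import Pool.Agent.Hp22AA.Clone

/-!
The effect of one vertex.
-/

set_option autoImplicit false
set_option linter.unusedSectionVars false

namespace Pool.Agent.Hp22AA

open Finset Polynomial Pool.Agent.Hp22AAD

variable {V T : Type} [Fintype V] [DecidableEq V] [DecidableEq T] {τ : V → T}
variable {ι : Type} [Fintype ι] [DecidableEq ι]
variable {ρ : sortPerms τ →* Equiv.Perm ι} {supp : ι → Finset V}

/-- maps which fix all points outside `W` -/
def Om (W : Finset V) : Finset (V → V) := univ.filter fun ω => ∀ v, v ∉ W → ω v = v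

/-- at most one point of each colour other than `p`, and these colours are in `X` -/
def Good (X : Finset V) (p : V) (κ : V → ℕ) : Prop :=
  ∀ c, c ≠ p → κ c ≤ 1 ∧ (κ c ≠ 0 → c ∈ X)

/-- the colours other than `p` -/
def Tset (X : Finset V) (p : V) (κ : V → ℕ) : Finset V := (X.erase p).filter fun c => κ c = 1

theorem cnt_psi_self {X : Finset V} {p : V} (hp : p ∈ X) {A : Finset V} (hA : A ⊆ X.erase p) :
    cnt (psi p A) X p = A.card + 1 := by
  have hpA : p ∉ A := fun h => by simpa using hA h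
  have : X.filter (fun v => psi p A v = p) = insert p A := by
    ext v
    rw [Finset.mem_filter, Finset.mem_insert]
    unfold psi
    by_cases hv : v ∈ A
    · have := Finset.mem_of_mem_erase (hA hv)
      simp [hv, this]
    · simp only [hv, if_false, or_false]
      constructor
      · exact fun h => h.2
      · rintro rfl; exact ⟨hp, rfl⟩
  rw [cnt, this, Finset.card_insert_of_notMem hpA]

theorem cnt_psi_ne {X : Finset V} {p : V} {A : Finset V} {c : V} (hc : c ≠ p) :
    cnt (psi p A) X c = if c ∈ X ∧ c ∉ A then 1 else 0 := by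
  by_cases h : c ∈ X ∧ c ∉ A
  · rw [if_pos h]
    have : X.filter (fun v => psi p A v = c) = {c} := by
      ext v
      rw [Finset.mem_filter, Finset.mem_singleton]
      unfold psi
      by_cases hv : v ∈ A
      · simp only [hv, if_true]
        constructor
        · rintro ⟨_, h2⟩; exact absurd h2.symm hc
        · rintro rfl; exact absurd hv h.2
      · simp only [hv, if_false]
        constructor
        · exact fun h => h.2
        · rintro rfl; exact ⟨h.1, rfl⟩
    rw [cnt, this, Finset.card_singleton]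
  · rw [if_neg h, cnt, Finset.card_eq_zero, Finset.filter_eq_empty_iff]
    intro v hv h2
    unfold psi at h2
    by_cases hvA : v ∈ A
    · rw [if_pos hvA] at h2; exact hc h2.symm
    · rw [if_neg hvA] at h2
      subst h2
      exact h ⟨hv, hvA⟩

open Classical in
theorem prodA {X : Finset V} {p : V} (hp : p ∈ X) {A : Finset V} (hA : A ⊆ X.erase p)
    (κ : V → ℕ) :
    ∏ c, fall (cnt (psi p A) X c) (κ c) =
      fall ((A.card : ℝ) + 1) (κ p) *
        (if Good X p κ then (if Disjoint (Tset X p κ) A then (1 : ℝ) else 0) else 0) := by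
  rw [← Finset.mul_prod_erase univ _ (Finset.mem_univ p), cnt_psi_self hp hA]
  push_cast
  congr 1
  by_cases hg : Good X p κ
  · rw [if_pos hg]
    by_cases hdis : Disjoint (Tset X p κ) A
    · rw [if_pos hdis]
      apply Finset.prod_eq_one
      intro c hc
      have hcp : c ≠ p := Finset.ne_of_mem_erase hc
      rw [cnt_psi_ne hcp]
      have h1 := (hg c hcp).1
      rcases Nat.eq_zero_or_pos (κ c) with h0 | h0
      · rw [h0, fall_zero]
      · have h3 : κ c = 1 := by omega
        have h4 := (hg c hcp).2 (by omega)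
        have h5 : c ∉ A := by
          intro hcA
          apply Finset.disjoint_left.1 hdis _ hcA
          exact Finset.mem_filter.2 ⟨Finset.mem_erase.2 ⟨hcp, h4⟩, h3⟩
        rw [if_pos ⟨h4, h5⟩, h3]
        simp [fall]
    · rw [if_neg hdis]
      rw [Finset.disjoint_left] at hdis
      push Not at hdis
      obtain ⟨c, hc, hcA⟩ := hdis
      have hc2 := Finset.mem_filter.1 hc
      have hcp : c ≠ p := Finset.ne_of_mem_erase hc2.1
      apply Finset.prod_eq_zero (Finset.mem_erase.2 ⟨hcp, Finset.mem_univ c⟩)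
      rw [cnt_psi_ne hcp, if_neg (fun h => h.2 hcA), Nat.cast_zero]
      exact fall_zero_pos (by omega)
  · rw [if_neg hg]
    unfold Good at hg
    push Not at hg
    obtain ⟨c, hcp, hc⟩ := hg
    apply Finset.prod_eq_zero (Finset.mem_erase.2 ⟨hcp, Finset.mem_univ c⟩)
    rw [cnt_psi_ne hcp]
    by_cases h1 : κ c ≤ 1
    · obtain ⟨h2, h3⟩ := hc h1
      rw [if_neg (fun h => h3 h.1), Nat.cast_zero]
      exact fall_zero_pos (by omega)
    · push Not at h1
      split_ifs
      · rw [Nat.cast_one]; exact fall_one_le h1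
      · rw [Nat.cast_zero]; exact fall_zero_pos (by omega)

theorem sum_disj (Y T : Finset V) (hT : T ⊆ Y) (s : ℕ) :
    ∑ A ∈ powersetCard s Y, (if Disjoint T A then (1 : ℝ) else 0) =
      ((Y.card - T.card).choose s : ℝ) := by
  rw [← Finset.sum_filter, Finset.sum_const, nsmul_eq_mul, mul_one]
  have : (powersetCard s Y).filter (fun A => Disjoint T A) = powersetCard s (Y \ T) := by
    ext A
    simp only [Finset.mem_filter, Finset.mem_powersetCard]
    constructor
    · rintro ⟨⟨h1, h2⟩, h3⟩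
      exact ⟨Finset.subset_sdiff.2 ⟨h1, h3.symm⟩, h2⟩
    · rintro ⟨h1, h2⟩
      have h3 := Finset.subset_sdiff.1 h1
      exact ⟨⟨h3.1, h2⟩, h3.2.symm⟩
  rw [this, Finset.card_powersetCard, Finset.card_sdiff_of_subset hT]

theorem sum_cnt (ω : V → V) (W : Finset V) : ∑ c, cnt ω W c = W.card := by
  unfold cnt
  exact (Finset.card_eq_sum_card_fiberwise (fun _ _ => Finset.mem_univ _)).symm

theorem deg_le {X : Finset V} {p : V} (ω : V → V) (W : Finset V) :
    cnt ω W p + (Tset X p (cnt ω W)).card ≤ W.card := by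
  rw [← sum_cnt ω W, ← Finset.add_sum_erase univ _ (Finset.mem_univ p)]
  apply Nat.add_le_add_left
  calc (Tset X p (cnt ω W)).card = ∑ c ∈ Tset X p (cnt ω W), 1 := by simp
    _ = ∑ c ∈ Tset X p (cnt ω W), cnt ω W c := by
        refine Finset.sum_congr rfl fun c hc => ?_
        exact (Finset.mem_filter.1 hc).2.symm
    _ ≤ _ := by
        apply Finset.sum_le_sum_of_subset
        intro c hc
        have := (Finset.mem_filter.1 hc).1
        exact Finset.mem_erase.2 ⟨Finset.ne_of_mem_erase this, Finset.mem_univ c⟩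

theorem Tset_card {X : Finset V} {p : V} (hp : p ∈ X) (κ : V → ℕ) :
    (Tset X p κ).card ≤ X.card - 1 := by
  rw [← Finset.card_erase_of_mem hp]
  exact Finset.card_le_card (Finset.filter_subset _ _)

/-- expansion of a local function of the map -/
theorem Del_expand (h2 : ∀ (σ : sortPerms τ) i, (∀ v ∈ supp i, (σ : Equiv.Perm V) v = v) →
      ρ σ i = i)
    (y y' : ι → ℤˣ) (S : Finset ι) (X : Finset V) (ψ : V → V) (π : Equiv.Perm V)
    (hψ : ∀ v, v ∉ X → ψ (π v) = v) :
    Del ρ supp y y' S (fun v => ψ (π v)) =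
      ∑ ω ∈ Om (S.biUnion supp ∩ X), Del ρ supp y y' S ω *
        ind ψ ω (S.biUnion supp ∩ X) π := by
  set W := S.biUnion supp ∩ X with hW
  set ω0 : V → V := fun v => if v ∈ W then ψ (π v) else v with hω0
  have hmem : ω0 ∈ Om W := by
    simp only [Om, Finset.mem_filter, Finset.mem_univ, true_and]
    intro v hv
    simp only [hω0, if_neg hv]
  rw [Finset.sum_eq_single_of_mem ω0 hmem]
  · have h3 : ind ψ ω0 W π = 1 := by
      unfold ind
      rw [if_pos]
      intro v hv
      simp only [hω0, if_pos hv]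
    rw [h3, mul_one]
    apply Del_congr h2
    intro v hv
    simp only [hω0]
    by_cases h4 : v ∈ W
    · rw [if_pos h4]
    · rw [if_neg h4]
      apply hψ
      intro h5
      exact h4 (Finset.mem_inter.2 ⟨hv, h5⟩)
  · intro ω hω hne
    have h3 : ind ψ ω W π = 0 := by
      unfold ind
      rw [if_neg]
      intro h4
      apply hne
      funext v
      simp only [hω0]
      by_cases h5 : v ∈ W
      · rw [if_pos h5, h4 v h5]
      · rw [if_neg h5]
        exact (Finset.mem_filter.1 hω).2 v h5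
    rw [h3, mul_zero]

/-- value at a map with clones, as a sum over patterns -/
theorem G_eq (h1 : ∀ (σ : sortPerms τ) i, supp (ρ σ i) = (supp i).image (σ : Equiv.Perm V))
    (h2 : ∀ (σ : sortPerms τ) i, (∀ v ∈ supp i, (σ : Equiv.Perm V) v = v) → ρ σ i = i)
    (f : (ι → ℤˣ) → ℝ) (hf : ∀ (σ : sortPerms τ) x, f (fun i => x (ρ σ i)) = f x)
    (p : V) (y y' : ι → ℤˣ) (A : Finset V) (hA : A ⊆ (cls τ p).erase p) :
    f (pb ρ supp (psi p A) y) - f (pb ρ supp (psi p A) y') =
      ∑ S, ∑ ω ∈ Om (S.biUnion supp ∩ cls τ p), fc f S * Del ρ supp y y' S ω *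
        ((∏ c, fall (cnt (psi p A) (cls τ p) c) (cnt ω (S.biUnion supp ∩ cls τ p) c)) /
          fall (cls τ p).card (S.biUnion supp ∩ cls τ p).card) := by
  set X := cls τ p with hX
  have hK : (0 : ℝ) < (KX X).card := KX_card_pos X
  have hpi : ∀ π ∈ KX X, f (pb ρ supp (psi p A) y) - f (pb ρ supp (psi p A) y') =
      ∑ S, fc f S * Del ρ supp y y' S (fun v => psi p A (π v)) := by
    intro π hπ
    have hπ' : π ∈ sortPerms τ := KX_sort hπ
    have h3 : ∀ z, f (pb ρ supp (psi p A) z) = f (pb ρ supp (fun v => psi p A (π v)) z) := by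
      intro z
      rw [← hf ⟨π, hπ'⟩ (pb ρ supp (psi p A) z)]
      congr 1
      funext i
      rw [← pb_comp h1 h2 (psi p A) ⟨π, hπ'⟩ z i]
    rw [h3 y, h3 y', fc_inv f, fc_inv f (pb ρ supp (fun v => psi p A (π v)) y'),
      ← Finset.sum_sub_distrib]
    refine Finset.sum_congr rfl fun S _ => ?_
    rw [Del]; ring
  have hsum : ((KX X).card : ℝ) * (f (pb ρ supp (psi p A) y) - f (pb ρ supp (psi p A) y')) =
      ∑ S, ∑ ω ∈ Om (S.biUnion supp ∩ X), fc f S * Del ρ supp y y' S ω *
        AA X (psi p A) ω (S.biUnion supp ∩ X) := by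
    rw [← nsmul_eq_mul, ← Finset.sum_const, Finset.sum_congr rfl hpi, Finset.sum_comm]
    refine Finset.sum_congr rfl fun S _ => ?_
    unfold AA
    simp only [Finset.mul_sum]
    rw [Finset.sum_comm]
    refine Finset.sum_congr rfl fun π hπ => ?_
    rw [Del_expand h2 y y' S X (psi p A) π, Finset.mul_sum]
    · exact Finset.sum_congr rfl fun ω _ => by ring
    · intro v hv
      rw [mem_KX.1 hπ v hv, psi, if_neg]
      intro hvA
      exact hv (Finset.mem_of_mem_erase (hA hvA))
  have h5 : (f (pb ρ supp (psi p A) y) - f (pb ρ supp (psi p A) y')) =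
      (∑ S, ∑ ω ∈ Om (S.biUnion supp ∩ X), fc f S * Del ρ supp y y' S ω *
        AA X (psi p A) ω (S.biUnion supp ∩ X)) / (KX X).card := by
    rw [eq_div_iff hK.ne', mul_comm]
    exact hsum
  rw [h5, Finset.sum_div]
  refine Finset.sum_congr rfl fun S _ => ?_
  rw [Finset.sum_div]
  refine Finset.sum_congr rfl fun ω _ => ?_
  have h6 := AA_closed X (psi p A) ω (S.biUnion supp ∩ X) Finset.inter_subset_right
  have h7 : (0 : ℝ) < fall X.card (S.biUnion supp ∩ X).card :=
    fall_pos (Finset.card_le_card Finset.inter_subset_right)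
  have h8 : AA X (psi p A) ω (S.biUnion supp ∩ X) =
      ((KX X).card * ∏ c, fall (cnt (psi p A) X c) (cnt ω (S.biUnion supp ∩ X) c)) /
        fall X.card (S.biUnion supp ∩ X).card := by
    rw [eq_div_iff h7.ne', h6]
  rw [h8]
  field_simp

section
variable (ρ supp)

open Classical in
/-- coefficient of a pattern -/
noncomputable def cf (f : (ι → ℤˣ) → ℝ) (p : V) (y y' : ι → ℤˣ) (S : Finset ι) (ω : V → V) : ℝ :=
  fc f S * Del ρ supp y y' S ω *
    (if Good (cls τ p) p (cnt ω (S.biUnion supp ∩ cls τ p)) then 1 else 0) /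
    (fall (cls τ p).card (S.biUnion supp ∩ cls τ p).card *
      fall (((cls τ p).card - 1 : ℕ) : ℝ)
        (Tset (cls τ p) p (cnt ω (S.biUnion supp ∩ cls τ p))).card)

/-- the polynomial in the number of clones -/
noncomputable def QP (f : (ι → ℤˣ) → ℝ) (p : V) (y y' : ι → ℤˣ) : ℝ[X] :=
  ∑ S : Finset ι, ∑ ω ∈ Om (S.biUnion supp ∩ cls τ p),
    C (cf ρ supp f p y y' S ω) * (fallP (cnt ω (S.biUnion supp ∩ cls τ p) p) *
      fallN (cls τ p).card (Tset (cls τ p) p (cnt ω (S.biUnion supp ∩ cls τ p))).card)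

end

open Classical in
theorem sum_G (h1 : ∀ (σ : sortPerms τ) i, supp (ρ σ i) = (supp i).image (σ : Equiv.Perm V))
    (h2 : ∀ (σ : sortPerms τ) i, (∀ v ∈ supp i, (σ : Equiv.Perm V) v = v) → ρ σ i = i)
    (f : (ι → ℤˣ) → ℝ) (hf : ∀ (σ : sortPerms τ) x, f (fun i => x (ρ σ i)) = f x)
    (p : V) (y y' : ι → ℤˣ) (s : ℕ) :
    ∑ A ∈ powersetCard s ((cls τ p).erase p),
      (f (pb ρ supp (psi p A) y) - f (pb ρ supp (psi p A) y')) =
      (((cls τ p).card - 1).choose s : ℝ) * (QP ρ supp f p y y').eval ((s : ℝ) + 1) := by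
  set X := cls τ p with hX
  have hp : p ∈ X := mem_cls.2 rfl
  have hn : 1 ≤ X.card := Finset.card_pos.2 ⟨p, hp⟩
  rw [Finset.sum_congr rfl fun A hA => G_eq h1 h2 f hf p y y' A (Finset.mem_powersetCard.1 hA).1]
  rw [Finset.sum_comm, QP, eval_finsetSum, Finset.mul_sum]
  refine Finset.sum_congr rfl fun S _ => ?_
  rw [Finset.sum_comm, eval_finsetSum, Finset.mul_sum]
  refine Finset.sum_congr rfl fun ω _ => ?_
  set W := S.biUnion supp ∩ X with hW
  set κ := cnt ω W with hκ
  have hW' : W.card ≤ X.card := Finset.card_le_card Finset.inter_subset_right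
  have hk : (Tset X p κ).card ≤ X.card - 1 := Tset_card hp κ
  have h7 : (0 : ℝ) < fall X.card W.card := fall_pos hW'
  have h8 : (0 : ℝ) < fall ((X.card - 1 : ℕ) : ℝ) (Tset X p κ).card := fall_pos hk
  have h9 : ∑ A ∈ powersetCard s (X.erase p), ∏ c, fall (cnt (psi p A) X c) (κ c) =
      fall ((s : ℝ) + 1) (κ p) * (if Good X p κ then 1 else 0) *
        ((X.card - 1 - (Tset X p κ).card).choose s : ℝ) := by
    have h10 : ∀ A ∈ powersetCard s (X.erase p), ∏ c, fall (cnt (psi p A) X c) (κ c) =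
        fall ((s : ℝ) + 1) (κ p) * (if Good X p κ then 1 else 0) *
          (if Disjoint (Tset X p κ) A then (1 : ℝ) else 0) := by
      intro A hA
      have hA' := Finset.mem_powersetCard.1 hA
      rw [prodA hp hA'.1, hA'.2]
      by_cases hg : Good X p κ
      · rw [if_pos hg, if_pos hg]; ring
      · rw [if_neg hg, if_neg hg]; ring
    rw [Finset.sum_congr rfl h10, ← Finset.mul_sum, sum_disj (X.erase p) (Tset X p κ) (Finset.filter_subset _ _) s,
      Finset.card_erase_of_mem hp]
  have h11 := choose_fall (X.card - 1) s (Tset X p κ).card hk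
  rw [← Finset.mul_sum, ← Finset.sum_div, h9]
  rw [eval_mul, eval_mul, eval_C, fallP_eval, fallN_eval]
  unfold cf
  rw [← hX, ← hW, ← hκ]
  have h12 : ((X.card - 1 : ℕ) : ℝ) - s = (X.card : ℝ) - (s + 1) := by
    rw [Nat.cast_sub hn]; push_cast; ring
  rw [h12] at h11
  have h13 : ((X.card - 1 - (Tset X p κ).card).choose s : ℝ) =
      ((X.card - 1).choose s : ℝ) * fall ((X.card : ℝ) - (s + 1)) (Tset X p κ).card /
        fall ((X.card - 1 : ℕ) : ℝ) (Tset X p κ).card := by
    rw [eq_div_iff h8.ne']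
    exact h11
  rw [h13]
  field_simp

theorem QP_deg (f : (ι → ℤˣ) → ℝ) (p : V) (y y' : ι → ℤˣ) (r d : ℕ)
    (hr : ∀ i, (supp i).card ≤ r) (hd : ∀ S : Finset ι, d < S.card → fc f S = 0) :
    (QP ρ supp f p y y').natDegree ≤ r * d := by
  unfold QP
  refine natDegree_sum_le_of_forall_le _ _ fun S _ => ?_
  refine natDegree_sum_le_of_forall_le _ _ fun ω _ => ?_
  by_cases hS : d < S.card
  · have : cf ρ supp f p y y' S ω = 0 := by
      unfold cf
      rw [hd S hS]; simp
    rw [this]; simp
  · push Not at hS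
    refine (natDegree_C_mul_le _ _).trans ?_
    refine natDegree_mul_le.trans ?_
    refine (add_le_add (fallP_deg _) (fallN_deg _ _)).trans ?_
    refine (deg_le ω _).trans ?_
    refine (Finset.card_le_card Finset.inter_subset_left).trans ?_
    refine Finset.card_biUnion_le.trans ?_
    calc ∑ i ∈ S, (supp i).card ≤ ∑ i ∈ S, r := Finset.sum_le_sum fun i _ => hr i
      _ = S.card * r := by simp
      _ ≤ d * r := Nat.mul_le_mul_right r hS
      _ = r * d := Nat.mul_comm d r

theorem QP_zero (h1 : ∀ (σ : sortPerms τ) i, supp (ρ σ i) = (supp i).image (σ : Equiv.Perm V))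
    (h2 : ∀ (σ : sortPerms τ) i, (∀ v ∈ supp i, (σ : Equiv.Perm V) v = v) → ρ σ i = i)
    (f : (ι → ℤˣ) → ℝ) (p : V) (y y' : ι → ℤˣ) (hyy : ∀ i, p ∉ supp i → y i = y' i) :
    (QP ρ supp f p y y').eval 0 = 0 := by
  unfold QP
  rw [eval_finsetSum]
  apply Finset.sum_eq_zero
  intro S _
  rw [eval_finsetSum]
  apply Finset.sum_eq_zero
  intro ω hω
  rw [eval_mul, eval_mul, eval_C, fallP_eval]
  rcases Nat.eq_zero_or_pos (cnt ω (S.biUnion supp ∩ cls τ p) p) with h | h
  · have h3 : Del ρ supp y y' S ω = 0 := by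
      apply Del_zero h1 h2 y y' p hyy
      intro v hv hvp
      by_cases hvX : v ∈ cls τ p
      · have : v ∈ (S.biUnion supp ∩ cls τ p).filter (fun v => ω v = p) :=
          Finset.mem_filter.2 ⟨Finset.mem_inter.2 ⟨hv, hvX⟩, hvp⟩
        rw [cnt, Finset.card_eq_zero] at h
        rw [h] at this
        simp at this
      · have h4 := (Finset.mem_filter.1 hω).2 v (fun h5 => hvX (Finset.mem_inter.1 h5).2)
        rw [hvp] at h4
        rw [← h4] at hvX
        exact hvX (mem_cls.2 rfl)
    unfold cf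
    rw [h3]
    simp
  · rw [fall_zero_pos h]
    simp

/-- The effect of the coordinates at one vertex. -/
theorem one_vertex (h1 : ∀ (σ : sortPerms τ) i, supp (ρ σ i) = (supp i).image (σ : Equiv.Perm V))
    (h2 : ∀ (σ : sortPerms τ) i, (∀ v ∈ supp i, (σ : Equiv.Perm V) v = v) → ρ σ i = i)
    (r : ℕ) (hr : ∀ i, (supp i).card ≤ r)
    (f : (ι → ℤˣ) → ℝ) (hf : ∀ (σ : sortPerms τ) x, f (fun i => x (ρ σ i)) = f x)
    (d : ℕ) (hd : ∀ S : Finset ι, d < S.card → fc f S = 0)
    (p : V) (y y' : ι → ℤˣ) (hyy : ∀ i, p ∉ supp i → y i = y' i) (B : ℝ)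
    (hB : ∀ A ⊆ (cls τ p).erase p,
      |f (pb ρ supp (psi p A) y) - f (pb ρ supp (psi p A) y')| ≤ B) :
    |f y - f y'| ≤ 8 * ((r * d : ℕ) : ℝ) ^ 2 / (cls τ p).card * B := by
  have hp : p ∈ cls τ p := mem_cls.2 rfl
  have hn : 1 ≤ (cls τ p).card := Finset.card_pos.2 ⟨p, hp⟩
  have h3 := small_at_one (r * d) (cls τ p).card hn (QP ρ supp f p y y')
    (degree_le_of_natDegree_le (QP_deg f p y y' r d hr hd)) (QP_zero h1 h2 f p y y' hyy) B ?_
  · have h4 := sum_G h1 h2 f hf p y y' 0
    rw [Finset.powersetCard_zero, Finset.sum_singleton, Nat.choose_zero_right, Nat.cast_zero,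
      zero_add, Nat.cast_one, one_mul] at h4
    rw [pb_id h2 (psi p ∅) (fun v => by simp [psi]), pb_id h2 (psi p ∅)
      (fun v => by simp [psi])] at h4
    rw [h4]
    exact h3
  · intro j hj hjn
    obtain ⟨s, rfl⟩ : ∃ s, j = s + 1 := ⟨j - 1, by omega⟩
    have h4 := sum_G h1 h2 f hf p y y' s
    have h5 : (0 : ℝ) < (((cls τ p).card - 1).choose s : ℝ) := by
      exact_mod_cast Nat.choose_pos (by omega)
    have h6 : |∑ A ∈ powersetCard s ((cls τ p).erase p),
        (f (pb ρ supp (psi p A) y) - f (pb ρ supp (psi p A) y'))| ≤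
        (((cls τ p).card - 1).choose s : ℝ) * B := by
      refine (Finset.abs_sum_le_sum_abs _ _).trans ?_
      calc ∑ A ∈ powersetCard s ((cls τ p).erase p),
          |f (pb ρ supp (psi p A) y) - f (pb ρ supp (psi p A) y')|
          ≤ ∑ A ∈ powersetCard s ((cls τ p).erase p), B :=
            Finset.sum_le_sum fun A hA => hB A (Finset.mem_powersetCard.1 hA).1
        _ = _ := by
            rw [Finset.sum_const, nsmul_eq_mul, Finset.card_powersetCard,
              Finset.card_erase_of_mem hp]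
    rw [h4, abs_mul, abs_of_pos h5] at h6
    push_cast
    exact le_of_mul_le_mul_left h6 h5

end Pool.Agent.Hp22AA
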