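import Mathlib
import Pool.Agent.Hp22AA.Vertex

/-!
Flatness of the derivatives, the variance bound, and the form of Q1.
-/

set_option autoImplicit false
set_option linter.unusedSectionVars false

namespace Pool.Agent.Hp22AA

open Finset Polynomial Pool.Agent.Hp22AAD

section general

variable {ι : Type} [Fintype ι] [DecidableEq ι]

theorem var_eq (f : (ι → ℤˣ) → ℝ) :
    variance f = ∑ S : Finset ι, (if S = ∅ then 0 else fc f S ^ 2) := by
  change av (fun x => f x ^ 2) - av f ^ 2 = _
  rw [parseval]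
  have h1 : av f = fc f ∅ := by
    unfold fc; congr 1; funext x; rw [chi_empty, mul_one]
  rw [h1, sub_eq_iff_eq_add]
  have h2 : fc f ∅ ^ 2 = ∑ S : Finset ι, (if S = ∅ then fc f S ^ 2 else 0) := by
    rw [Finset.sum_ite_eq' univ ∅]
    simp
  rw [h2, ← Finset.sum_add_distrib]
  refine Finset.sum_congr rfl fun S _ => ?_
  by_cases h : S = ∅ <;> simp [h]

theorem tot_eq (f : (ι → ℤˣ) → ℝ) :
    ∑ j, av (fun x => dd j f x ^ 2) = ∑ S : Finset ι, (S.card : ℝ) * fc f S ^ 2 := by
  have h := sum_sum_dd f (fun _ => (1 : ℝ))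
  simp only [one_mul, mul_one] at h
  rw [← h]
  refine Finset.sum_congr rfl fun j _ => ?_
  rw [parseval]

theorem poincare (f : (ι → ℤˣ) → ℝ) : variance f ≤ ∑ j, av (fun x => dd j f x ^ 2) := by
  rw [var_eq, tot_eq]
  refine Finset.sum_le_sum fun S _ => ?_
  by_cases h : S = ∅
  · simp [h]
  · rw [if_neg h]
    have h1 : (1 : ℝ) ≤ S.card := by
      exact_mod_cast Finset.card_pos.2 (Finset.nonempty_iff_ne_empty.2 h)
    nlinarith [sq_nonneg (fc f S)]

theorem var_zero (f : (ι → ℤˣ) → ℝ) (hd : ∀ S : Finset ι, 0 < S.card → fc f S = 0) :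
    variance f = 0 := by
  rw [var_eq]
  apply Finset.sum_eq_zero
  intro S _
  by_cases h : S = ∅
  · simp [h]
  · rw [if_neg h, hd S (Finset.card_pos.2 (Finset.nonempty_iff_ne_empty.2 h))]
    ring

theorem le_supNorm (f : (ι → ℤˣ) → ℝ) (x : ι → ℤˣ) : |f x| ≤ supNorm f :=
  le_ciSup (f := fun x => |f x|) (Set.finite_range _).bddAbove x

theorem supNorm_nonneg (f : (ι → ℤˣ) → ℝ) : 0 ≤ supNorm f :=
  Real.iSup_nonneg fun _ => abs_nonneg _

theorem le_maxDer (f : (ι → ℤˣ) → ℝ) (j : ι) :
    Real.sqrt (av (fun x => dd j f x ^ 2)) ≤ maxDer f :=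
  le_ciSup (f := fun j => Real.sqrt (av (fun x => dd j f x ^ 2))) (Set.finite_range _).bddAbove j

theorem maxDer_nonneg (f : (ι → ℤˣ) → ℝ) : 0 ≤ maxDer f :=
  Real.iSup_nonneg fun _ => Real.sqrt_nonneg _

theorem le_maxDerOne (f : (ι → ℤˣ) → ℝ) (j : ι) :
    av (fun x => |dd j f x|) ≤ maxDerOne f :=
  le_ciSup (f := fun j => av (fun x => |dd j f x|)) (Set.finite_range _).bddAbove j

theorem av_abs_nonneg (f : (ι → ℤˣ) → ℝ) : 0 ≤ av (fun x => |f x|) := by
  unfold av
  positivity

theorem maxDerOne_nonneg (f : (ι → ℤˣ) → ℝ) : 0 ≤ maxDerOne f :=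
  Real.iSup_nonneg fun _ => av_abs_nonneg _

theorem one_le_two (f : (ι → ℤˣ) → ℝ) : maxDerOne f ≤ maxDer f := by
  apply Real.iSup_le _ (maxDer_nonneg f)
  intro j
  refine le_trans ?_ (le_maxDer f j)
  change av (fun x => |dd j f x|) ≤ _
  apply Real.le_sqrt_of_sq_le
  have h := av_cs (fun x => |dd j f x|) (fun _ => (1 : ℝ))
  simp only [mul_one, one_pow, sq_abs] at h
  rw [av_const (1 : ℝ), mul_one] at h
  exact h

/-- degree one -/
theorem deg_one (f : (ι → ℤˣ) → ℝ) (hd : ∀ S : Finset ι, 1 < S.card → fc f S = 0) :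
    variance f ≤ supNorm f * maxDer f := by
  have hconst : ∀ j x, dd j f x = fc f {j} := by
    intro j x
    rw [dd_eq, Finset.sum_eq_single {j}]
    · simp [chi_empty]
    · intro S _ hS
      by_cases h : j ∈ S
      · rw [if_pos h]
        have : 1 < S.card := by
          rcases Nat.lt_or_ge 1 S.card with h1 | h1
          · exact h1
          · exfalso
            apply hS
            have h2 : S.card = 1 := le_antisymm h1 (Finset.card_pos.2 ⟨j, h⟩)
            obtain ⟨a, ha⟩ := Finset.card_eq_one.1 h2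
            rw [ha] at h ⊢
            rw [Finset.mem_singleton.1 h]
        rw [hd S this, zero_mul]
      · rw [if_neg h]
    · simp
  have hM' : ∀ j : ι, |fc f {j}| ≤ maxDer f := by
    intro j
    have := le_maxDer f j
    simp only [hconst] at this
    rw [av_const, Real.sqrt_sq_eq_abs] at this
    exact this
  have hlin : ∀ x, f x = fc f ∅ + ∑ j : ι, fc f {j} * sv (x j) := by
    intro x
    rw [fc_inv f x]
    have h3 : ∀ S : Finset ι, fc f S * chi S x =
        (if S = ∅ then fc f S * chi S x else 0) + (if S.card = 1 then fc f S * chi S x else 0) := by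
      intro S
      by_cases h0 : S = ∅
      · simp [h0]
      · rw [if_neg h0]
        by_cases h1 : S.card = 1
        · rw [if_pos h1]; ring
        · rw [if_neg h1, hd S]
          · ring
          · have := Finset.card_pos.2 (Finset.nonempty_iff_ne_empty.2 h0)
            omega
    rw [Finset.sum_congr rfl fun S _ => h3 S, Finset.sum_add_distrib]
    congr 1
    · rw [Finset.sum_ite_eq' univ ∅]
      simp [chi_empty]
    · rw [← Finset.sum_filter]
      symm
      refine Finset.sum_nbij (fun j => {j}) ?_ ?_ ?_ ?_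
      · intro j _; simp
      · intro i _ j _ hij; simpa using hij
      · intro S hS
        have h4 : S.card = 1 := by simpa using hS
        obtain ⟨a, ha⟩ := Finset.card_eq_one.1 h4
        exact ⟨a, by simp, ha.symm⟩
      · intro j _
        simp [chi]
  have hsum : ∑ j : ι, |fc f {j}| ≤ supNorm f := by
    set s : ι → ℤˣ := fun j => if 0 ≤ fc f {j} then 1 else -1 with hs
    have h1 : ∀ j, fc f {j} * sv (s j) = |fc f {j}| := by
      intro j
      by_cases h : 0 ≤ fc f {j}
      · simp only [hs, if_pos h, sv_one, mul_one, abs_of_nonneg h]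
      · simp only [hs, if_neg h, sv_neg_one, abs_of_neg (not_le.1 h)]; ring
    have h2 := hlin s
    have h3 := hlin (fun j => - s j)
    simp only [sv_neg, mul_neg, h1, Finset.sum_neg_distrib] at h2 h3
    have h4 := (abs_le.1 (le_supNorm f s)).2
    have h5 := (abs_le.1 (le_supNorm f (fun j => - s j))).1
    linarith
  have hrew : variance f = ∑ j : ι, fc f {j} ^ 2 := by
    rw [var_eq]
    have h3 : ∀ S : Finset ι, (if S = ∅ then 0 else fc f S ^ 2) =
        if S.card = 1 then fc f S ^ 2 else 0 := by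
      intro S
      by_cases h0 : S = ∅
      · simp [h0]
      · rw [if_neg h0]
        by_cases h1 : S.card = 1
        · rw [if_pos h1]
        · rw [if_neg h1, hd S]
          · ring
          · have := Finset.card_pos.2 (Finset.nonempty_iff_ne_empty.2 h0)
            omega
    rw [Finset.sum_congr rfl fun S _ => h3 S, ← Finset.sum_filter]
    symm
    refine Finset.sum_nbij (fun j => {j}) ?_ ?_ ?_ ?_
    · intro j _; simp
    · intro i _ j _ hij; simpa using hij
    · intro S hS
      have h4 : S.card = 1 := by simpa using hS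
      obtain ⟨a, ha⟩ := Finset.card_eq_one.1 h4
      exact ⟨a, by simp, ha.symm⟩
    · intro j _; rfl
  rw [hrew]
  calc ∑ j : ι, fc f {j} ^ 2 ≤ ∑ j : ι, |fc f {j}| * maxDer f := by
        refine Finset.sum_le_sum fun j _ => ?_
        rw [← sq_abs, sq]
        exact mul_le_mul_of_nonneg_left (hM' j) (abs_nonneg _)
    _ = (∑ j : ι, |fc f {j}|) * maxDer f := by rw [Finset.sum_mul]
    _ ≤ supNorm f * maxDer f := mul_le_mul_of_nonneg_right hsum (maxDer_nonneg f)

end general

variable {V T : Type} [Fintype V] [DecidableEq V] [DecidableEq T] {τ : V → T}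
variable {ι : Type} [Fintype ι] [DecidableEq ι]
variable {ρ : sortPerms τ →* Equiv.Perm ι} {supp : ι → Finset V}

theorem multi_vertex
    (h1 : ∀ (σ : sortPerms τ) i, supp (ρ σ i) = (supp i).image (σ : Equiv.Perm V))
    (h2 : ∀ (σ : sortPerms τ) i, (∀ v ∈ supp i, (σ : Equiv.Perm V) v = v) → ρ σ i = i)
    (r : ℕ) (hr : ∀ i, (supp i).card ≤ r)
    (f : (ι → ℤˣ) → ℝ) (hf : ∀ (σ : sortPerms τ) x, f (fun i => x (ρ σ i)) = f x)
    (d : ℕ) (hd : ∀ S : Finset ι, d < S.card → fc f S = 0) (B : ℝ) (hB : ∀ x, |f x| ≤ B)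
    (Q : Finset V) : ∀ y y' : ι → ℤˣ, (∀ i, ¬ (Q ⊆ supp i) → y i = y' i) →
      |f y - f y'| ≤ (∏ q ∈ Q, (8 * ((r * d : ℕ) : ℝ) ^ 2 / (cls τ q).card)) * (2 * B) := by
  induction Q using Finset.induction_on with
  | empty =>
    intro y y' _
    rw [Finset.prod_empty, one_mul]
    have h3 := abs_sub (f y) (f y')
    linarith [hB y, hB y']
  | insert p Q hp ih =>
    intro y y' hyy
    rw [Finset.prod_insert hp, mul_assoc]
    apply one_vertex h1 h2 r hr f hf d hd p y y'
    · intro i hi
      apply hyy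
      intro hc
      exact hi (hc (Finset.mem_insert_self p Q))
    · intro A hA
      apply ih
      intro i hi
      by_contra hne
      have h3 := pb_ne h1 h2 (psi p A) y y' (insert p Q) hyy i hne
      apply hi
      intro q hq
      have hqp : q ≠ p := by rintro rfl; exact hp hq
      obtain ⟨v, hv, hvq⟩ := Finset.mem_image.1 (h3 (Finset.mem_insert_of_mem hq))
      unfold psi at hvq
      by_cases hvA : v ∈ A
      · rw [if_pos hvA] at hvq
        exact absurd hvq.symm hqp
      · rw [if_neg hvA] at hvq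
        rwa [hvq] at hv

theorem flat
    (h1 : ∀ (σ : sortPerms τ) i, supp (ρ σ i) = (supp i).image (σ : Equiv.Perm V))
    (h2 : ∀ (σ : sortPerms τ) i, (∀ v ∈ supp i, (σ : Equiv.Perm V) v = v) → ρ σ i = i)
    (r : ℕ) (hr : ∀ i, (supp i).card ≤ r)
    (f : (ι → ℤˣ) → ℝ) (hf : ∀ (σ : sortPerms τ) x, f (fun i => x (ρ σ i)) = f x)
    (d : ℕ) (hd : ∀ S : Finset ι, d < S.card → fc f S = 0) (i : ι) (x : ι → ℤˣ) :
    |dd i f x| ≤ (∏ q ∈ supp i, (8 * ((r * d : ℕ) : ℝ) ^ 2 / (cls τ q).card)) * supNorm f := by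
  have h := multi_vertex h1 h2 r hr f hf d hd (supNorm f) (le_supNorm f) (supp i)
    (Function.update x i 1) (Function.update x i (-1)) (by
      intro j hj
      have : j ≠ i := by rintro rfl; exact hj (Finset.Subset.refl _)
      rw [Function.update_of_ne this, Function.update_of_ne this])
  unfold dd
  rw [abs_div, abs_two, div_le_iff₀ (by norm_num)]
  linarith

/-- number of coordinates in an orbit -/
theorem orbit_card
    (h2 : ∀ (σ : sortPerms τ) i, (∀ v ∈ supp i, (σ : Equiv.Perm V) v = v) → ρ σ i = i)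
    (i0 : ι) (O : Finset ι) (hO : ∀ i ∈ O, ∃ σ : sortPerms τ, ρ σ i0 = i) :
    O.card ≤ ∏ q ∈ supp i0, (cls τ q).card := by
  classical
  choose! σ hσ using hO
  set F : ι → (V → V) := fun i v => if v ∈ supp i0 then (σ i : Equiv.Perm V) v else v with hF
  have h3 : O.card ≤ (Fintype.piFinset fun v : V =>
      if v ∈ supp i0 then cls τ v else {v}).card := by
    apply Finset.card_le_card_of_injOn F
    · intro i _
      rw [Finset.mem_coe, Fintype.mem_piFinset]
      intro v
      by_cases hv : v ∈ supp i0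
      · simp only [hF, if_pos hv]
        rw [mem_cls]
        exact (σ i).2 v
      · simp only [hF, if_neg hv, Finset.mem_singleton]
    · intro i hi j hj hij
      rw [← hσ i hi, ← hσ j hj]
      apply act_eq h2
      intro v hv
      have := congrFun hij v
      simp only [hF, if_pos hv] at this
      exact this
  refine h3.trans (le_of_eq ?_)
  rw [Fintype.card_piFinset]
  rw [← Finset.prod_subset (Finset.subset_univ (supp i0))]
  · exact Finset.prod_congr rfl fun v hv => by rw [if_pos hv]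
  · intro v _ hv
    rw [if_neg hv, Finset.card_singleton]

theorem var_bound
    (h1 : ∀ (σ : sortPerms τ) i, supp (ρ σ i) = (supp i).image (σ : Equiv.Perm V))
    (h2 : ∀ (σ : sortPerms τ) i, (∀ v ∈ supp i, (σ : Equiv.Perm V) v = v) → ρ σ i = i)
    (r : ℕ) (hr : ∀ i, (supp i).card ≤ r)
    (k : ℕ) (typ : ι → Fin k) (htyp : ∀ i j, typ i = typ j → ∃ σ : sortPerms τ, ρ σ i = j)
    (f : (ι → ℤˣ) → ℝ) (hf : ∀ (σ : sortPerms τ) x, f (fun i => x (ρ σ i)) = f x)
    (d : ℕ) (hd : ∀ S : Finset ι, d < S.card → fc f S = 0) :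
    variance f ≤ k * (8 * ((r * d : ℕ) : ℝ) ^ 2) ^ r * supNorm f * maxDerOne f := by
  have hsn := supNorm_nonneg f
  have hmo := maxDerOne_nonneg f
  rcases Nat.eq_zero_or_pos d with h0 | hdpos
  · subst h0
    rw [var_zero f hd]
    positivity
  set c : ι → ℝ := fun i => ∏ q ∈ supp i, (8 * ((r * d : ℕ) : ℝ) ^ 2 / (cls τ q).card) with hc
  have hc0 : ∀ i, 0 ≤ c i := fun i => Finset.prod_nonneg fun q _ => by positivity
  have hcls : ∀ (σ : sortPerms τ) q, (cls τ ((σ : Equiv.Perm V) q)).card = (cls τ q).card := by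
    intro σ q
    have : cls τ ((σ : Equiv.Perm V) q) = cls τ q := by
      ext v
      rw [mem_cls, mem_cls, σ.2 q]
    rw [this]
  have hcinv : ∀ (σ : sortPerms τ) i, c (ρ σ i) = c i := by
    intro σ i
    simp only [hc]
    rw [h1, Finset.prod_image (fun a _ b _ h => (σ : Equiv.Perm V).injective h)]
    exact Finset.prod_congr rfl fun q _ => by rw [hcls]
  have hterm : ∀ i, av (fun x => dd i f x ^ 2) ≤ c i * supNorm f * maxDerOne f := by
    intro i
    calc av (fun x => dd i f x ^ 2) ≤ av (fun x => (c i * supNorm f) * |dd i f x|) := by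
          apply av_mono
          intro x
          rw [← sq_abs, sq]
          exact mul_le_mul_of_nonneg_right (flat h1 h2 r hr f hf d hd i x) (abs_nonneg _)
      _ = (c i * supNorm f) * av (fun x => |dd i f x|) := av_mul _ _
      _ ≤ _ := mul_le_mul_of_nonneg_left (le_maxDerOne f i) (mul_nonneg (hc0 i) hsn)
  have hclass : ∀ t : Fin k, ∑ i ∈ univ.filter (fun i => typ i = t), c i ≤
      (8 * ((r * d : ℕ) : ℝ) ^ 2) ^ r := by
    intro t
    rcases (univ.filter (fun i => typ i = t)).eq_empty_or_nonempty with he | ⟨i0, hi0⟩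
    · rw [he, Finset.sum_empty]; positivity
    · have hi0t : typ i0 = t := (Finset.mem_filter.1 hi0).2
      have horb : ∀ i ∈ univ.filter (fun i => typ i = t), ∃ σ : sortPerms τ, ρ σ i0 = i := by
        intro i hi
        exact htyp i0 i (by rw [hi0t, (Finset.mem_filter.1 hi).2])
      have hcc : ∀ i ∈ univ.filter (fun i => typ i = t), c i = c i0 := by
        intro i hi
        obtain ⟨σ, rfl⟩ := horb i hi
        exact hcinv σ i0
      rw [Finset.sum_congr rfl hcc, Finset.sum_const, nsmul_eq_mul]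
      have hcard := orbit_card h2 i0 _ horb
      have hcard' : ((univ.filter (fun i => typ i = t)).card : ℝ) ≤
          ∏ q ∈ supp i0, ((cls τ q).card : ℝ) := by
        exact_mod_cast hcard
      calc ((univ.filter (fun i => typ i = t)).card : ℝ) * c i0
          ≤ (∏ q ∈ supp i0, ((cls τ q).card : ℝ)) * c i0 :=
            mul_le_mul_of_nonneg_right hcard' (hc0 i0)
        _ = ∏ q ∈ supp i0, (8 * ((r * d : ℕ) : ℝ) ^ 2) := by
            simp only [hc]
            rw [← Finset.prod_mul_distrib]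
            refine Finset.prod_congr rfl fun q _ => ?_
            have : (0 : ℝ) < (cls τ q).card := by
              exact_mod_cast Finset.card_pos.2 ⟨q, mem_cls.2 rfl⟩
            field_simp
        _ = (8 * ((r * d : ℕ) : ℝ) ^ 2) ^ (supp i0).card := by rw [Finset.prod_const]
        _ ≤ _ := by
            rcases Nat.eq_zero_or_pos r with hr0 | hrpos
            · have h3 : (supp i0).card = 0 := by have := hr i0; omega
              rw [h3, hr0]
            · apply pow_le_pow_right₀ _ (hr i0)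
              have h3 : (1 : ℝ) ≤ ((r * d : ℕ) : ℝ) := by
                exact_mod_cast Nat.mul_pos hrpos hdpos
              nlinarith
  calc variance f ≤ ∑ i, av (fun x => dd i f x ^ 2) := poincare f
    _ ≤ ∑ i, c i * (supNorm f * maxDerOne f) := Finset.sum_le_sum fun i _ => by
        rw [← mul_assoc]; exact hterm i
    _ = (∑ t : Fin k, ∑ i ∈ univ.filter (fun i => typ i = t), c i) *
        (supNorm f * maxDerOne f) := by
        rw [← Finset.sum_mul]
        congr 1
        exact (Finset.sum_fiberwise univ typ c).symm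
    _ ≤ (∑ t : Fin k, (8 * ((r * d : ℕ) : ℝ) ^ 2) ^ r) * (supNorm f * maxDerOne f) := by
        apply mul_le_mul_of_nonneg_right _ (mul_nonneg hsn hmo)
        exact Finset.sum_le_sum fun t _ => hclass t
    _ = _ := by
        rw [Finset.sum_const, Finset.card_univ, Fintype.card_fin, nsmul_eq_mul]
        ring

/-- absorbing the constant in the exponent -/
theorem absorb (r k d : ℕ) (hd : 2 ≤ d) :
    (k : ℝ) * (8 * ((r * d : ℕ) : ℝ) ^ 2) ^ r ≤ (d : ℝ) ^ (2 * r + k * (8 * r ^ 2) ^ r) := by
  have h1 : (k : ℝ) * (8 * ((r * d : ℕ) : ℝ) ^ 2) ^ r =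
      (d : ℝ) ^ (2 * r) * ((k * (8 * r ^ 2) ^ r : ℕ) : ℝ) := by
    push_cast
    rw [mul_pow (r : ℝ), ← mul_assoc, mul_pow (8 * (r : ℝ) ^ 2), ← pow_mul]
    ring
  rw [h1, pow_add]
  apply mul_le_mul_of_nonneg_left _ (by positivity)
  have h2 : k * (8 * r ^ 2) ^ r ≤ 2 ^ (k * (8 * r ^ 2) ^ r) := Nat.lt_two_pow_self.le
  calc ((k * (8 * r ^ 2) ^ r : ℕ) : ℝ) ≤ (2 : ℝ) ^ (k * (8 * r ^ 2) ^ r) := by exact_mod_cast h2
    _ ≤ _ := pow_le_pow_left₀ (by norm_num) (by exact_mod_cast hd) _

theorem q1_form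
    (h1 : ∀ (σ : sortPerms τ) i, supp (ρ σ i) = (supp i).image (σ : Equiv.Perm V))
    (h2 : ∀ (σ : sortPerms τ) i, (∀ v ∈ supp i, (σ : Equiv.Perm V) v = v) → ρ σ i = i)
    (r : ℕ) (hr : ∀ i, (supp i).card ≤ r)
    (k : ℕ) (typ : ι → Fin k) (htyp : ∀ i j, typ i = typ j → ∃ σ : sortPerms τ, ρ σ i = j)
    (f : (ι → ℤˣ) → ℝ) (hf : ∀ (σ : sortPerms τ) x, f (fun i => x (ρ σ i)) = f x)
    (d : ℕ) (hd : ∀ S : Finset ι, d < S.card → fc f S = 0) :
    variance f ≤ (d : ℝ) ^ (2 * r + k * (8 * r ^ 2) ^ r) * supNorm f * maxDer f := by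
  have hsn := supNorm_nonneg f
  have hmo := maxDer_nonneg f
  rcases Nat.lt_or_ge 1 d with h | h
  · refine (var_bound h1 h2 r hr k typ htyp f hf d hd).trans ?_
    refine mul_le_mul (mul_le_mul_of_nonneg_right (absorb r k d h) hsn) (one_le_two f)
      (maxDerOne_nonneg f) (by positivity)
  · rcases Nat.eq_zero_or_pos d with h0 | h0
    · subst h0
      rw [var_zero f hd]
      positivity
    · have h3 : d = 1 := by omega
      subst h3
      rw [Nat.cast_one, one_pow, one_mul]
      exact deg_one f hd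

end Pool.Agent.Hp22AA
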