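import Mathlib

/-!
Tools for functions of one linear form: the number of crossings of a polynomial, lacunary chains
of weights, density of subset sums.
-/

set_option autoImplicit false
set_option linter.unusedSectionVars false

namespace Pool.Agent.Hp22AA

open Finset Polynomial MeasureTheory

/-- The increments of a polynomial over disjoint segments with bounded end values. -/
theorem crossing {κ : Type*} (s : Finset κ) (p : ℝ[X]) (d : ℕ) (hp : p.natDegree ≤ d)
    (α β : κ → ℝ) (B : ℝ) (hα : ∀ i ∈ s, |p.eval (α i)| ≤ B) (hβ : ∀ i ∈ s, |p.eval (β i)| ≤ B)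
    (hB : 0 ≤ B)
    (hdis : ∀ i ∈ s, ∀ j ∈ s, i ≠ j → Disjoint (Set.uIcc (α i) (β i)) (Set.uIcc (α j) (β j))) :
    ∑ i ∈ s, |p.eval (β i) - p.eval (α i)| ≤ 2 * d * B := by
  classical
  set U : κ → Set ℝ := fun i => Set.uIoc (p.eval (α i)) (p.eval (β i)) with hU
  have hUm : ∀ i, MeasurableSet (U i) := fun i => measurableSet_uIoc
  have hUs : ∀ i ∈ s, U i ⊆ Set.Icc (-B) B := by
    intro i hi y hy
    have h1 := Set.uIoc_subset_uIcc hy
    rw [Set.mem_uIcc] at h1
    have h2 := abs_le.1 (hα i hi)
    have h3 := abs_le.1 (hβ i hi)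
    rcases h1 with h1 | h1
    · exact ⟨h2.1.trans h1.1, h1.2.trans h3.2⟩
    · exact ⟨h3.1.trans h1.1, h1.2.trans h2.2⟩
  have hfin : volume (Set.Icc (-B) B) ≠ ⊤ := by
    rw [Real.volume_Icc]; exact ENNReal.ofReal_ne_top
  -- length of an increment as an integral
  have hlen : ∀ i ∈ s, |p.eval (β i) - p.eval (α i)| =
      ∫ y in Set.Icc (-B) B, (U i).indicator (fun _ => (1 : ℝ)) y := by
    intro i hi
    rw [integral_indicator (hUm i), Measure.restrict_restrict (hUm i),
      Set.inter_eq_left.2 (hUs i hi)]
    rw [setIntegral_const, smul_eq_mul, mul_one]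
    simp only [hU, Measure.real, Real.volume_uIoc]
    rw [ENNReal.toReal_ofReal (abs_nonneg _)]
  have hint : ∀ i ∈ s, Integrable ((U i).indicator (fun _ => (1 : ℝ)))
      (volume.restrict (Set.Icc (-B) B)) := by
    intro i _
    apply Integrable.indicator _ (hUm i)
    exact integrableOn_const hfin
  rw [Finset.sum_congr rfl hlen, ← integral_finsetSum s hint]
  -- number of crossings
  have hcount : ∀ y, ∑ i ∈ s, (U i).indicator (fun _ => (1 : ℝ)) y ≤ d := by
    intro y
    have h1 : ∑ i ∈ s, (U i).indicator (fun _ => (1 : ℝ)) y = ((s.filter fun i => y ∈ U i).card : ℝ) := by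
      rw [Finset.card_filter]
      push_cast
      exact Finset.sum_congr rfl fun i _ => by rw [Set.indicator_apply]
    rw [h1]
    by_cases he : (s.filter fun i => y ∈ U i) = ∅
    · rw [he]; simp
    have hex : ∀ i ∈ s.filter fun i => y ∈ U i, ∃ t ∈ Set.uIcc (α i) (β i), p.eval t = y := by
      intro i hi
      have h2 := Set.uIoc_subset_uIcc (Finset.mem_filter.1 hi).2
      have h3 := intermediate_value_uIcc (f := fun t => p.eval t) (a := α i) (b := β i)
        (by fun_prop) h2
      obtain ⟨t, ht, hty⟩ := h3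
      exact ⟨t, ht, hty⟩
    choose! t ht hty using hex
    have hne : p - C y ≠ 0 := by
      intro h0
      obtain ⟨i, hi⟩ := Finset.nonempty_iff_ne_empty.2 he
      have h2 := (Finset.mem_filter.1 hi).2
      have h3 : p = C y := sub_eq_zero.1 h0
      simp only [hU] at h2
      rw [h3] at h2
      simp at h2
    have hroot : (s.filter fun i => y ∈ U i).card ≤ (p - C y).roots.toFinset.card := by
      apply Finset.card_le_card_of_injOn t
      · intro i hi
        rw [Finset.mem_coe, Multiset.mem_toFinset, mem_roots hne, IsRoot.def, eval_sub, eval_C,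
          hty i hi, sub_self]
      · intro i hi j hj hij
        by_contra hne2
        have h4 := hdis i (Finset.mem_filter.1 hi).1 j (Finset.mem_filter.1 hj).1 hne2
        exact Set.disjoint_left.1 h4 (ht i hi) (hij ▸ ht j hj)
    have h5 : (p - C y).roots.toFinset.card ≤ d := by
      refine (Multiset.toFinset_card_le _).trans ?_
      refine (card_roots' _).trans ?_
      rw [natDegree_sub_C]
      exact hp
    exact_mod_cast hroot.trans h5
  calc ∫ y in Set.Icc (-B) B, ∑ i ∈ s, (U i).indicator (fun _ => (1 : ℝ)) y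
      ≤ ∫ _y in Set.Icc (-B) B, (d : ℝ) := by
        apply integral_mono
        · exact integrable_finsetSum s hint
        · exact integrableOn_const hfin
        · intro y; exact hcount y
    _ = 2 * d * B := by
        rw [setIntegral_const, smul_eq_mul, Measure.real, Real.volume_Icc,
          ENNReal.toReal_ofReal (by linarith)]
        ring

variable {ι : Type*} [DecidableEq ι]

/-- number of elements of weight at least `b j` -/
noncomputable def rk (W : Finset ι) (b : ι → ℝ) (j : ι) : ℕ := (W.filter fun l => b j ≤ b l).card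

theorem chain (W : Finset ι) (b : ι → ℝ) (hb : ∀ l ∈ W, 0 < b l) (K : ℕ) (hK : 1 ≤ K)
    (hwin : ∀ w : ℝ, 0 < w → (W.filter fun l => w ≤ b l ∧ b l < 2 * w).card ≤ K) :
    ∀ N : ℕ, ∀ j ∈ W, rk W b j = N → ∃ Λ ⊆ W, (∀ l ∈ Λ, 2 * b j ≤ b l) ∧
      (N - 1) / K ≤ Λ.card ∧
      ∀ δ : ι → ℝ, (∀ l ∈ Λ, δ l = -1 ∨ δ l = 0 ∨ δ l = 1) → (∃ l ∈ Λ, δ l ≠ 0) →
        2 * b j ≤ |∑ l ∈ Λ, δ l * b l| := by
  intro N
  induction N using Nat.strong_induction_on with
  | _ N ih =>
  intro j hj hN
  set U := W.filter fun l => 2 * b j ≤ b l with hU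
  have hbj := hb j hj
  have hcount : rk W b j ≤ K + U.card := by
    have h1 : (W.filter fun l => b j ≤ b l) ⊆
        (W.filter fun l => b j ≤ b l ∧ b l < 2 * b j) ∪ U := by
      intro l hl
      have h2 := Finset.mem_filter.1 hl
      by_cases h3 : b l < 2 * b j
      · exact Finset.mem_union_left _ (Finset.mem_filter.2 ⟨h2.1, h2.2, h3⟩)
      · exact Finset.mem_union_right _ (Finset.mem_filter.2 ⟨h2.1, not_lt.1 h3⟩)
    unfold rk
    refine (Finset.card_le_card h1).trans ((Finset.card_union_le _ _).trans ?_)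
    exact Nat.add_le_add_right (hwin (b j) hbj) _
  rcases U.eq_empty_or_nonempty with he | hne
  · refine ⟨∅, Finset.empty_subset _, by simp, ?_, ?_⟩
    · rw [he, Finset.card_empty, add_zero, hN] at hcount
      rw [Finset.card_empty, Nat.le_zero]
      apply Nat.div_eq_of_lt
      omega
    · rintro δ _ ⟨l, hl, _⟩
      simp at hl
  · obtain ⟨l1, hl1, hmin⟩ := U.exists_min_image b hne
    have hl1W := (Finset.mem_filter.1 hl1).1
    have hl1b := (Finset.mem_filter.1 hl1).2
    have hrk1 : rk W b l1 = U.card := by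
      unfold rk
      congr 1
      ext l
      simp only [hU, Finset.mem_filter]
      constructor
      · rintro ⟨h1, h2⟩; exact ⟨h1, hl1b.trans h2⟩
      · rintro ⟨h1, h2⟩; exact ⟨h1, hmin l (Finset.mem_filter.2 ⟨h1, h2⟩)⟩
    have hlt : U.card < N := by
      rw [← hN]
      unfold rk
      apply Finset.card_lt_card
      refine ⟨fun l hl => ?_, fun h => ?_⟩
      · have := Finset.mem_filter.1 hl
        exact Finset.mem_filter.2 ⟨this.1, by linarith [this.2]⟩
      · have h1 : j ∈ U := h (Finset.mem_filter.2 ⟨hj, le_rfl⟩)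
        have h2 := (Finset.mem_filter.1 h1).2
        linarith
    obtain ⟨Λ, hΛW, hΛ2, hΛc, hΛδ⟩ := ih U.card hlt l1 hl1W hrk1
    have hnot : l1 ∉ Λ := by
      intro h
      have := hΛ2 l1 h
      have := hb l1 hl1W
      linarith
    refine ⟨insert l1 Λ, Finset.insert_subset hl1W hΛW, ?_, ?_, ?_⟩
    · intro l hl
      rcases Finset.mem_insert.1 hl with rfl | h
      · exact hl1b
      · have := hΛ2 l h
        linarith
    · rw [Finset.card_insert_of_notMem hnot]
      have h1 : (N - 1) ≤ (U.card - 1) + K := by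
        have := Finset.card_pos.2 hne
        omega
      calc (N - 1) / K ≤ ((U.card - 1) + K) / K := Nat.div_le_div_right h1
        _ = (U.card - 1) / K + 1 := by rw [Nat.add_div_right _ hK]
        _ ≤ Λ.card + 1 := by omega
    · intro δ hδ hex
      rw [Finset.sum_insert hnot]
      have hbl1 := hb l1 hl1W
      by_cases h1 : ∃ l ∈ Λ, δ l ≠ 0
      · have h2 := hΛδ δ (fun l hl => hδ l (Finset.mem_insert_of_mem hl)) h1
        have h3 : |δ l1 * b l1| ≤ b l1 := by
          rw [abs_mul, abs_of_pos hbl1]
          rcases hδ l1 (Finset.mem_insert_self _ _) with h | h | h <;> rw [h] <;> simp; linarith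
        have h4 := abs_sub_abs_le_abs_sub (∑ l ∈ Λ, δ l * b l) (-(δ l1 * b l1))
        rw [abs_neg, sub_neg_eq_add, add_comm (∑ l ∈ Λ, δ l * b l)] at h4
        linarith
      · push Not at h1
        have h2 : ∑ l ∈ Λ, δ l * b l = 0 := Finset.sum_eq_zero fun l hl => by rw [h1 l hl, zero_mul]
        rw [h2, add_zero, abs_mul, abs_of_pos hbl1]
        obtain ⟨l, hl, hl0⟩ := hex
        rcases Finset.mem_insert.1 hl with rfl | h
        · rcases hδ l (Finset.mem_insert_self _ _) with h | h | h
          · rw [h]; simp; exact hl1b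
          · exact absurd h hl0
          · rw [h]; simp; exact hl1b
        · exact absurd (h1 l h) hl0

/-- sums of a decreasing function of the rank -/
theorem sum_rank (b : ι → ℝ) (G : ℕ → ℝ) (hG : ∀ m n, m ≤ n → G n ≤ G m) :
    ∀ (N : ℕ) (W : Finset ι), W.card = N → ∑ j ∈ W, G (rk W b j - 1) ≤ ∑ i ∈ range N, G i := by
  intro N
  induction N with
  | zero =>
    intro W hW
    rw [Finset.card_eq_zero.1 hW]
    simp
  | succ N ih =>
    intro W hW
    have hne : W.Nonempty := Finset.card_pos.1 (by omega)
    obtain ⟨j0, hj0, hmin⟩ := W.exists_min_image b hne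
    have hrk : rk W b j0 = N + 1 := by
      unfold rk
      rw [Finset.filter_true_of_mem fun l hl => hmin l hl, hW]
    rw [← Finset.add_sum_erase W _ hj0, Finset.sum_range_succ, add_comm, hrk]
    have h1 : ∑ j ∈ W.erase j0, G (rk W b j - 1) ≤ ∑ j ∈ W.erase j0, G (rk (W.erase j0) b j - 1) := by
      refine Finset.sum_le_sum fun j _ => ?_
      apply hG
      apply Nat.sub_le_sub_right
      unfold rk
      exact Finset.card_le_card (Finset.filter_subset_filter _ (Finset.erase_subset _ _))
    have h2 := ih (W.erase j0) (by rw [Finset.card_erase_of_mem hj0, hW]; rfl)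
    have h3 : N + 1 - 1 = N := by omega
    rw [h3]
    linarith

theorem sum_blocks (r : ℝ) (hr0 : 0 ≤ r) (hr1 : r < 1) (K : ℕ) (hK : 1 ≤ K) (n : ℕ) :
    ∑ i ∈ range n, r ^ (i / K) ≤ K / (1 - r) := by
  have h1 : ∀ q : ℕ, ∑ i ∈ range (K * q), r ^ (i / K) = K * ∑ t ∈ range q, r ^ t := by
    intro q
    induction q with
    | zero => simp
    | succ q ih =>
      rw [Nat.mul_succ, Finset.sum_range_add, ih, Finset.sum_range_succ, mul_add]
      congr 1
      have : ∀ x ∈ range K, r ^ ((K * q + x) / K) = r ^ q := by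
        intro x hx
        rw [Nat.mul_add_div hK, Nat.div_eq_of_lt (Finset.mem_range.1 hx), add_zero]
      rw [Finset.sum_congr rfl this, Finset.sum_const, Finset.card_range, nsmul_eq_mul]
  have h2 : ∑ t ∈ range n, r ^ t ≤ 1 / (1 - r) := by
    have h3 := geom_sum_eq hr1.ne n
    rw [h3, ← neg_div_neg_eq, neg_sub, neg_sub]
    apply div_le_div_of_nonneg_right _ (by linarith)
    have := pow_nonneg hr0 n
    linarith
  calc ∑ i ∈ range n, r ^ (i / K) ≤ ∑ i ∈ range (K * n), r ^ (i / K) := by
        apply Finset.sum_le_sum_of_subset_of_nonneg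
        · intro i hi
          rw [Finset.mem_range] at hi ⊢
          nlinarith
        · intro i _ _
          positivity
    _ = K * ∑ t ∈ range n, r ^ t := h1 n
    _ ≤ K * (1 / (1 - r)) := by
        apply mul_le_mul_of_nonneg_left h2 (by positivity)
    _ = _ := by ring

/-- Signed sums of numbers in `[0, δ]` are `δ`-dense. -/
theorem dense_sums (b : ι → ℝ) (δ : ℝ) (S : Finset ι) (h0 : ∀ l ∈ S, 0 ≤ b l)
    (hδ : ∀ l ∈ S, b l ≤ δ) (hδ0 : 0 ≤ δ) :
    ∀ t : ℝ, |t| ≤ ∑ l ∈ S, b l → ∃ ε : ι → ℝ, (∀ l, ε l = 1 ∨ ε l = -1) ∧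
      |∑ l ∈ S, ε l * b l - t| ≤ δ := by
  induction S using Finset.induction_on with
  | empty =>
    intro t ht
    refine ⟨fun _ => 1, fun _ => Or.inl rfl, ?_⟩
    simp only [Finset.sum_empty] at ht ⊢
    rw [zero_sub, abs_neg]
    exact ht.trans hδ0
  | insert l S hl ih =>
    have ih' := ih (fun i hi => h0 i (Finset.mem_insert_of_mem hi))
      (fun i hi => hδ i (Finset.mem_insert_of_mem hi))
    have hbl0 := h0 l (Finset.mem_insert_self _ _)
    have hblδ := hδ l (Finset.mem_insert_self _ _)
    set A := ∑ i ∈ S, b i with hA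
    have hA0 : 0 ≤ A := Finset.sum_nonneg fun i hi => h0 i (Finset.mem_insert_of_mem hi)
    -- the case of nonnegative `t`
    have key : ∀ t : ℝ, 0 ≤ t → t ≤ b l + A → ∃ ε : ι → ℝ, (∀ l, ε l = 1 ∨ ε l = -1) ∧
        |∑ i ∈ insert l S, ε i * b i - t| ≤ δ := by
      intro t ht0 ht
      by_cases hc : -A ≤ t - b l
      · obtain ⟨ε, hε, hε2⟩ := ih' (t - b l) (by rw [abs_le]; constructor <;> linarith)
        refine ⟨fun i => if i = l then 1 else ε i, ?_, ?_⟩
        · intro i
          by_cases hi : i = l
          · left; simp [hi]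
          · simp only [if_neg hi]; exact hε i
        · rw [Finset.sum_insert hl]
          have h1 : ∑ i ∈ S, (if i = l then (1 : ℝ) else ε i) * b i = ∑ i ∈ S, ε i * b i := by
            refine Finset.sum_congr rfl fun i hi => ?_
            rw [if_neg]
            rintro rfl; exact hl hi
          rw [h1]
          simp only [if_true]
          have h2 : 1 * b l + ∑ i ∈ S, ε i * b i - t = ∑ i ∈ S, ε i * b i - (t - b l) := by ring
          rw [h2]
          exact hε2
      · push Not at hc
        refine ⟨fun i => if i = l then 1 else -1, ?_, ?_⟩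
        · intro i
          by_cases hi : i = l
          · left; simp [hi]
          · right; simp [hi]
        · rw [Finset.sum_insert hl]
          have h1 : ∑ i ∈ S, (if i = l then (1 : ℝ) else -1) * b i = - A := by
            rw [hA, ← Finset.sum_neg_distrib]
            refine Finset.sum_congr rfl fun i hi => ?_
            rw [if_neg]
            · ring
            · rintro rfl; exact hl hi
          rw [h1]
          simp only [if_true]
          rw [abs_le]
          constructor <;> linarith
    intro t ht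
    rw [Finset.sum_insert hl] at ht
    rcases le_total 0 t with h | h
    · exact key t h ((abs_le.1 ht).2)
    · obtain ⟨ε, hε, hε2⟩ := key (-t) (by linarith) (by have := (abs_le.1 ht).1; linarith)
      refine ⟨fun i => - ε i, ?_, ?_⟩
      · intro i
        rcases hε i with h1 | h1
        · right
          change - ε i = -1
          rw [h1]
        · left
          change - ε i = 1
          rw [h1]; ring
      · have h1 : ∑ i ∈ insert l S, - ε i * b i - t = -(∑ i ∈ insert l S, ε i * b i - (-t)) := by
          simp only [neg_mul, Finset.sum_neg_distrib]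
          ring
        rw [h1, abs_neg]
        exact hε2

end Pool.Agent.Hp22AA
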