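import Mathlib
import Pool.Agent.Hp22AA.Main
import Pool.Agent.Hp22AA.Cross

/-!
Polynomials of one linear form.
-/

set_option autoImplicit false
set_option linter.unusedSectionVars false

namespace Pool.Agent.Hp22AA

open Finset Polynomial Pool.Agent.Hp22AAD

variable {ι : Type} [Fintype ι] [DecidableEq ι]

/-- change the signs in `T` -/
def flip (T : Finset ι) (x : ι → ℤˣ) (l : ι) : ℤˣ := if l ∈ T then - x l else x l

theorem flip_flip (T : Finset ι) (x : ι → ℤˣ) : flip T (flip T x) = x := by
  funext l
  unfold flip
  by_cases h : l ∈ T <;> simp [h]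

theorem av_flip (T : Finset ι) (g : (ι → ℤˣ) → ℝ) : av (fun x => g (flip T x)) = av g := by
  unfold av
  congr 1
  exact Finset.sum_bij' (fun x _ => flip T x) (fun x _ => flip T x) (fun _ _ => Finset.mem_univ _)
    (fun _ _ => Finset.mem_univ _) (fun x _ => flip_flip T x) (fun x _ => flip_flip T x)
    (fun _ _ => rfl)

/-- the sum of the other terms -/
def oth (a : ι → ℝ) (j : ι) (x : ι → ℤˣ) : ℝ := ∑ l ∈ univ.erase j, a l * sv (x l)

theorem lin_update (a : ι → ℝ) (j : ι) (x : ι → ℤˣ) (u : ℤˣ) :
    ∑ l, a l * sv (Function.update x j u l) = oth a j x + a j * sv u := by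
  rw [← Finset.sum_erase_add _ _ (Finset.mem_univ j), oth]
  congr 1
  · refine Finset.sum_congr rfl fun l hl => ?_
    rw [Function.update_of_ne (Finset.ne_of_mem_erase hl)]
  · rw [Function.update_self]

theorem dd_ridge (a : ι → ℝ) (p : ℝ[X]) (f : (ι → ℤˣ) → ℝ)
    (hf : ∀ x, f x = p.eval (∑ j, a j * sv (x j))) (j : ι) (x : ι → ℤˣ) :
    dd j f x = (p.eval (oth a j x + a j) - p.eval (oth a j x - a j)) / 2 := by
  unfold dd
  rw [hf, hf, lin_update, lin_update, sv_one, sv_neg_one, mul_one, mul_neg_one, sub_eq_add_neg
    (oth a j x)]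

theorem mem_seg {s c y : ℝ} (h : y ∈ Set.uIcc (s - c) (s + c)) : |y - s| ≤ |c| := by
  rw [Set.mem_uIcc] at h
  rcases h with h | h
  · have h0 : 0 ≤ c := by linarith [h.1, h.2]
    rw [abs_of_nonneg h0, abs_le]
    constructor <;> linarith [h.1, h.2]
  · have h0 : c ≤ 0 := by linarith [h.1, h.2]
    rw [abs_of_nonpos h0, abs_le]
    constructor <;> linarith [h.1, h.2]

/-- `L¹` bound from a lacunary set of other weights. -/
theorem l1_bound (a : ι → ℝ) (p : ℝ[X]) (d : ℕ) (hp : p.natDegree ≤ d) (f : (ι → ℤˣ) → ℝ)
    (hf : ∀ x, f x = p.eval (∑ j, a j * sv (x j))) (B : ℝ) (hB : ∀ x, |f x| ≤ B) (j : ι)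
    (haj : a j ≠ 0) (Λ : Finset ι) (hj : j ∉ Λ)
    (hΛ : ∀ δ : ι → ℝ, (∀ l ∈ Λ, δ l = -1 ∨ δ l = 0 ∨ δ l = 1) → (∃ l ∈ Λ, δ l ≠ 0) →
        2 * |a j| ≤ |∑ l ∈ Λ, (δ l * |a l|)|) :
    av (fun x => |dd j f x|) ≤ d * B / 2 ^ Λ.card := by
  have hB0 : 0 ≤ B := (abs_nonneg _).trans (hB 1)
  have hpt : ∀ x, ∑ T ∈ Λ.powerset, |dd j f (flip T x)| ≤ d * B := by
    intro x
    have hval : ∀ (T : Finset ι) (u : ℤˣ), f (Function.update (flip T x) j u) =
        p.eval (oth a j (flip T x) + a j * sv u) := by
      intro T u
      rw [hf, lin_update]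
    have h := crossing Λ.powerset p d hp (fun T => oth a j (flip T x) - a j)
      (fun T => oth a j (flip T x) + a j) B ?_ ?_ hB0 ?_
    · have h2 : ∀ T ∈ Λ.powerset, |dd j f (flip T x)| =
          |p.eval (oth a j (flip T x) + a j) - p.eval (oth a j (flip T x) - a j)| / 2 := by
        intro T _
        rw [dd_ridge a p f hf, abs_div, abs_two]
      rw [Finset.sum_congr rfl h2, ← Finset.sum_div]
      rw [div_le_iff₀ (by norm_num)]
      linarith
    · intro T _
      have := hB (Function.update (flip T x) j (-1))
      rw [hval, sv_neg_one, mul_neg_one, ← sub_eq_add_neg] at this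
      exact this
    · intro T _
      have := hB (Function.update (flip T x) j 1)
      rw [hval, sv_one, mul_one] at this
      exact this
    · intro T hT T' hT' hne
      rw [Set.disjoint_left]
      intro y hy hy'
      have h1 := mem_seg hy
      have h2 := mem_seg hy'
      -- the centres are far apart
      have hT := Finset.mem_powerset.1 hT
      have hT' := Finset.mem_powerset.1 hT'
      have hdiff : ∃ l ∈ Λ, ¬ (l ∈ T ↔ l ∈ T') := by
        by_contra hc
        push Not at hc
        apply hne
        ext l
        by_cases hl : l ∈ Λ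
        · exact hc l hl
        · exact ⟨fun h => absurd (hT h) hl, fun h => absurd (hT' h) hl⟩
      set δ : ι → ℝ := fun l => (if 0 ≤ a l then 1 else -1) *
        ((sv (flip T x l) - sv (flip T' x l)) / 2) with hδ
      have hcases : ∀ l, sv (flip T x l) - sv (flip T' x l) = 0 ∨
          sv (flip T x l) - sv (flip T' x l) = 2 ∨ sv (flip T x l) - sv (flip T' x l) = -2 := by
        intro l
        rcases sv_cases (flip T x l) with h | h <;> rcases sv_cases (flip T' x l) with h' | h' <;>
          rw [h, h'] <;> simp <;> norm_num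
      have h3 := hΛ δ ?_ ?_
      · have h4 : oth a j (flip T x) - oth a j (flip T' x) = 2 * ∑ l ∈ Λ, δ l * |a l| := by
          unfold oth
          rw [← Finset.sum_sub_distrib, Finset.mul_sum]
          symm
          apply Finset.sum_subset_zero_on_sdiff
          · intro l hl
            refine Finset.mem_erase.2 ⟨?_, Finset.mem_univ l⟩
            rintro rfl
            exact hj hl
          · intro l hl
            have hlΛ := (Finset.mem_sdiff.1 hl).2
            have e1 : l ∉ T := fun h => hlΛ (hT h)
            have e2 : l ∉ T' := fun h => hlΛ (hT' h)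
            simp [flip, e1, e2]
          · intro l _
            simp only [hδ]
            by_cases h0 : 0 ≤ a l
            · rw [if_pos h0, abs_of_nonneg h0]; ring
            · rw [if_neg h0, abs_of_neg (not_le.1 h0)]; ring
        have h5 : |oth a j (flip T x) - oth a j (flip T' x)| ≤ 2 * |a j| := by
          have h6 := abs_sub_le (oth a j (flip T x)) y (oth a j (flip T' x))
          rw [abs_sub_comm (oth a j (flip T x)) y] at h6
          linarith
        rw [h4, abs_mul, abs_two] at h5
        have h7 : 0 < |a j| := abs_pos.2 haj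
        linarith
      · intro l _
        simp only [hδ]
        by_cases h0 : 0 ≤ a l
        · rw [if_pos h0]
          rcases hcases l with h | h | h <;> rw [h] <;> norm_num
        · rw [if_neg h0]
          rcases hcases l with h | h | h <;> rw [h] <;> norm_num
      · obtain ⟨l, hl, hl2⟩ := hdiff
        refine ⟨l, hl, ?_⟩
        simp only [hδ]
        apply mul_ne_zero
        · split_ifs <;> norm_num
        · rcases sv_cases (x l) with h | h
          · by_cases e1 : l ∈ T <;> by_cases e2 : l ∈ T'
            · exact absurd (iff_of_true e1 e2) hl2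
            · simp [flip, e1, e2, h]; norm_num
            · simp [flip, e1, e2, h]
            · exact absurd (iff_of_false e1 e2) hl2
          · by_cases e1 : l ∈ T <;> by_cases e2 : l ∈ T'
            · exact absurd (iff_of_true e1 e2) hl2
            · simp [flip, e1, e2, h]
            · simp [flip, e1, e2, h]; norm_num
            · exact absurd (iff_of_false e1 e2) hl2
  have h1 : (2 : ℝ) ^ Λ.card * av (fun x => |dd j f x|) =
      av (fun x => ∑ T ∈ Λ.powerset, |dd j f (flip T x)|) := by
    rw [av_sum]
    have : ∀ T ∈ Λ.powerset, av (fun x => |dd j f (flip T x)|) = av (fun x => |dd j f x|) :=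
      fun T _ => av_flip T (fun x => |dd j f x|)
    rw [Finset.sum_congr rfl this, Finset.sum_const, nsmul_eq_mul, Finset.card_powerset]
    push_cast
    rfl
  rw [le_div_iff₀ (by positivity), mul_comm, h1]
  calc _ ≤ av (fun _ : ι → ℤˣ => d * B) := av_mono hpt
    _ = _ := av_const _

end Pool.Agent.Hp22AA
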