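import Mathlib
import Pool.Agent.Hp22AA.Ridge

/-!
Polynomials of one linear form: large and small weights.
-/

set_option autoImplicit false
set_option linter.unusedSectionVars false

namespace Pool.Agent.Hp22AA

open Finset Polynomial Pool.Agent.Hp22AAD

variable {ι : Type} [Fintype ι] [DecidableEq ι]

/-- total weight of the coordinates which are not heavier than `j` -/
noncomputable def tail (a : ι → ℝ) (j : ι) : ℝ := ∑ l ∈ univ.filter (fun l => |a l| ≤ |a j|), |a l|

/-- `L²` norm of a derivative -/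
noncomputable def nd (f : (ι → ℤˣ) → ℝ) (j : ι) : ℝ := Real.sqrt (av (fun x => dd j f x ^ 2))

theorem nd_le_of_sup (f : (ι → ℤˣ) → ℝ) (j : ι) (C : ℝ) (hC : ∀ x, |dd j f x| ≤ C) :
    nd f j ≤ C := by
  have hC0 : 0 ≤ C := (abs_nonneg _).trans (hC 1)
  unfold nd
  rw [Real.sqrt_le_left hC0]
  calc av (fun x => dd j f x ^ 2) ≤ av (fun _ : ι → ℤˣ => C ^ 2) := by
        apply av_mono
        intro x
        rw [← sq_abs]
        exact pow_le_pow_left₀ (abs_nonneg _) (hC x) 2
    _ = C ^ 2 := av_const _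

theorem dd_abs_le (f : (ι → ℤˣ) → ℝ) (B : ℝ) (hB : ∀ x, |f x| ≤ B) (j : ι) (x : ι → ℤˣ) :
    |dd j f x| ≤ B := by
  unfold dd
  rw [abs_div, abs_two, div_le_iff₀ (by norm_num)]
  have h := abs_sub (f (Function.update x j 1)) (f (Function.update x j (-1)))
  linarith [hB (Function.update x j 1), hB (Function.update x j (-1))]

theorem nd_le_of_l1 (f : (ι → ℤˣ) → ℝ) (B : ℝ) (hB : ∀ x, |f x| ≤ B) (j : ι) (C : ℝ)
    (hC : av (fun x => |dd j f x|) ≤ C) : nd f j ≤ Real.sqrt (B * C) := by
  have hB0 : 0 ≤ B := (abs_nonneg _).trans (hB 1)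
  unfold nd
  apply Real.sqrt_le_sqrt
  calc av (fun x => dd j f x ^ 2) ≤ av (fun x => B * |dd j f x|) := by
        apply av_mono
        intro x
        rw [← sq_abs, sq]
        exact mul_le_mul_of_nonneg_right (dd_abs_le f B hB j x) (abs_nonneg _)
    _ = B * av (fun x => |dd j f x|) := av_mul _ _
    _ ≤ B * C := mul_le_mul_of_nonneg_left hC hB0

/-- the window condition for the large weights -/
theorem big_window (a : ι → ℝ) (d : ℕ) (W : Finset ι)
    (hW : ∀ j ∈ W, tail a j < 4 * (d : ℝ) ^ 2 * |a j|) (w : ℝ) (hw : 0 < w) :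
    (W.filter fun l => w ≤ |a l| ∧ |a l| < 2 * w).card ≤ 8 * d ^ 2 := by
  rcases (W.filter fun l => w ≤ |a l| ∧ |a l| < 2 * w).eq_empty_or_nonempty with he | hne
  · rw [he]; simp
  · obtain ⟨m, hm, hmax⟩ := Finset.exists_max_image _ (fun l => |a l|) hne
    have hm' := Finset.mem_filter.1 hm
    have h1 : ((W.filter fun l => w ≤ |a l| ∧ |a l| < 2 * w).card : ℝ) * w ≤ tail a m := by
      calc ((W.filter fun l => w ≤ |a l| ∧ |a l| < 2 * w).card : ℝ) * w
          = ∑ l ∈ W.filter (fun l => w ≤ |a l| ∧ |a l| < 2 * w), w := by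
            rw [Finset.sum_const, nsmul_eq_mul]
        _ ≤ ∑ l ∈ W.filter (fun l => w ≤ |a l| ∧ |a l| < 2 * w), |a l| :=
            Finset.sum_le_sum fun l hl => (Finset.mem_filter.1 hl).2.1
        _ ≤ tail a m := by
            unfold tail
            apply Finset.sum_le_sum_of_subset_of_nonneg
            · intro l hl
              exact Finset.mem_filter.2 ⟨Finset.mem_univ l, hmax l hl⟩
            · intro l _ _; exact abs_nonneg _
    have h2 := hW m hm'.1
    have h3 : ((W.filter fun l => w ≤ |a l| ∧ |a l| < 2 * w).card : ℝ) * w <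
        ((8 * d ^ 2 : ℕ) : ℝ) * w := by
      have h4 : 4 * (d : ℝ) ^ 2 * |a m| ≤ 4 * (d : ℝ) ^ 2 * (2 * w) :=
        mul_le_mul_of_nonneg_left hm'.2.2.le (by positivity)
      have h5 : ((8 * d ^ 2 : ℕ) : ℝ) * w = 4 * (d : ℝ) ^ 2 * (2 * w) := by
        push_cast; ring
      linarith
    have h6 := lt_of_mul_lt_mul_right h3 hw.le
    exact_mod_cast h6.le

theorem big_pos (a : ι → ℝ) (d : ℕ) (W : Finset ι)
    (hW : ∀ j ∈ W, tail a j < 4 * (d : ℝ) ^ 2 * |a j|) : ∀ j ∈ W, 0 < |a j| := by
  intro j hj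
  have h1 := hW j hj
  have h2 : 0 ≤ tail a j := Finset.sum_nonneg fun l _ => abs_nonneg _
  by_contra hc
  have h3 : |a j| = 0 := le_antisymm (not_lt.1 hc) (abs_nonneg _)
  rw [h3, mul_zero] at h1
  linarith

/-- the bounds for the large weights -/
noncomputable def bigc (a : ι → ℝ) (d : ℕ) (W : Finset ι) (j : ι) : ℝ :=
  d * Real.sqrt (1 / 2) ^ ((rk W (fun l => |a l|) j - 1) / (8 * d ^ 2))

theorem sqrt_half : Real.sqrt (1 / 2) ≤ 71 / 100 := by
  apply Real.sqrt_le_iff.2
  constructor <;> norm_num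

theorem big_term (a : ι → ℝ) (d : ℕ) (hd : 1 ≤ d) (W : Finset ι)
    (hW : ∀ j ∈ W, tail a j < 4 * (d : ℝ) ^ 2 * |a j|)
    (p : ℝ[X]) (hp : p.natDegree ≤ d)
    (f : (ι → ℤˣ) → ℝ) (hf : ∀ x, f x = p.eval (∑ j, a j * sv (x j))) (B : ℝ)
    (hB : ∀ x, |f x| ≤ B) (j : ι) (hj : j ∈ W) : nd f j ≤ bigc a d W j * B := by
  have hB0 : 0 ≤ B := (abs_nonneg _).trans (hB 1)
  have hd1 : (1 : ℝ) ≤ d := by exact_mod_cast hd
  have hpos := big_pos a d W hW
  have hK1 : 1 ≤ 8 * d ^ 2 := by
    have : 1 ≤ d ^ 2 := Nat.one_le_pow _ _ hd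
    omega
  unfold bigc
  set r : ℝ := Real.sqrt (1 / 2) with hr
  have hr0 : 0 ≤ r := Real.sqrt_nonneg _
  have hr1 : r ≤ 71 / 100 := sqrt_half
  have hr2 : r ^ 2 = 1 / 2 := Real.sq_sqrt (by norm_num)
  obtain ⟨Λ, hΛW, hΛ2, hΛc, hΛδ⟩ := chain W (fun l => |a l|) hpos (8 * d ^ 2) hK1
    (fun w hw => big_window a d W hW w hw) _ j hj rfl
  have hjΛ : j ∉ Λ := by
    intro h
    have h1 := hΛ2 j h
    have h2 := hpos j hj
    linarith
  have h1 := l1_bound a p d hp f hf B hB j (abs_pos.1 (hpos j hj)) Λ hjΛ hΛδ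
  have h2 := nd_le_of_l1 f B hB j _ h1
  refine h2.trans ?_
  have h3 : B * (d * B / 2 ^ Λ.card) = d * (B * r ^ Λ.card) ^ 2 := by
    have h4 : (r ^ Λ.card) ^ 2 = 1 / 2 ^ Λ.card := by
      rw [← pow_mul, mul_comm, pow_mul, hr2, one_div_pow]
    rw [mul_pow, h4]
    ring
  rw [h3]
  have h5 : (d : ℝ) * (B * r ^ Λ.card) ^ 2 ≤ (d * (B * r ^ Λ.card)) ^ 2 := by
    rw [mul_pow (d : ℝ)]
    apply mul_le_mul_of_nonneg_right _ (sq_nonneg _)
    nlinarith
  refine (Real.sqrt_le_sqrt h5).trans ?_
  rw [Real.sqrt_sq (by positivity), mul_assoc, mul_comm B]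
  apply mul_le_mul_of_nonneg_left _ (by positivity)
  apply mul_le_mul_of_nonneg_right _ hB0
  exact pow_le_pow_of_le_one hr0 (by linarith) hΛc

theorem big_sum (a : ι → ℝ) (d : ℕ) (hd : 1 ≤ d) (W : Finset ι) :
    ∑ j ∈ W, bigc a d W j ≤ 28 * (d : ℝ) ^ 3 := by
  have hd1 : (1 : ℝ) ≤ d := by exact_mod_cast hd
  have hK1 : 1 ≤ 8 * d ^ 2 := by
    have : 1 ≤ d ^ 2 := Nat.one_le_pow _ _ hd
    omega
  unfold bigc
  set r : ℝ := Real.sqrt (1 / 2) with hr
  have hr0 : 0 ≤ r := Real.sqrt_nonneg _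
  have hr1 : r ≤ 71 / 100 := sqrt_half
  calc ∑ j ∈ W, (d : ℝ) * r ^ ((rk W (fun l => |a l|) j - 1) / (8 * d ^ 2))
      = d * ∑ j ∈ W, r ^ ((rk W (fun l => |a l|) j - 1) / (8 * d ^ 2)) := by rw [Finset.mul_sum]
    _ ≤ d * (((8 * d ^ 2 : ℕ) : ℝ) / (1 - r)) := by
        apply mul_le_mul_of_nonneg_left _ (by positivity)
        refine (sum_rank (fun l => |a l|) (fun i => r ^ (i / (8 * d ^ 2))) ?_ W.card W rfl).trans
          (sum_blocks r hr0 (by linarith) (8 * d ^ 2) hK1 W.card)
        intro m n hmn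
        exact pow_le_pow_of_le_one hr0 (by linarith) (Nat.div_le_div_right hmn)
    _ ≤ d * (((8 * d ^ 2 : ℕ) : ℝ) / (29 / 100)) := by
        apply mul_le_mul_of_nonneg_left _ (by positivity)
        apply div_le_div_of_nonneg_left (by positivity) (by norm_num)
        linarith
    _ ≤ 28 * (d : ℝ) ^ 3 := by
        push_cast
        have h1 : 0 ≤ (d : ℝ) ^ 3 := by positivity
        have h2 : (d : ℝ) * (8 * (d : ℝ) ^ 2 / (29 / 100)) = 800 / 29 * ((d : ℝ) ^ 3) := by
          ring
        rw [h2]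
        nlinarith

/-- the small weights -/
theorem small_term (a : ι → ℝ) (d : ℕ) (hd : 1 ≤ d) (j0 : ι)
    (hj0 : 4 * (d : ℝ) ^ 2 * |a j0| ≤ tail a j0) (p : ℝ[X]) (hp : p.natDegree ≤ d)
    (f : (ι → ℤˣ) → ℝ) (hf : ∀ x, f x = p.eval (∑ j, a j * sv (x j))) (B : ℝ)
    (hB : ∀ x, |f x| ≤ B) :
    ∀ j ∈ univ.filter (fun l => |a l| ≤ |a j0|), nd f j ≤ 4 * (d : ℝ) ^ 2 * |a j| / tail a j0 * B := by
  have hB0 : 0 ≤ B := (abs_nonneg _).trans (hB 1)
  have hd1 : (1 : ℝ) ≤ d := by exact_mod_cast hd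
  set S := univ.filter (fun l => |a l| ≤ |a j0|) with hS
  set A := tail a j0 with hA
  have hAS : A = ∑ l ∈ S, |a l| := rfl
  have hA0 : 0 ≤ A := Finset.sum_nonneg fun l _ => abs_nonneg _
  rcases hA0.eq_or_lt with hA00 | hApos
  · -- all these weights vanish
    have hz : ∀ j ∈ S, nd f j ≤ 0 := by
      intro j hj
      have h1 : |a j| ≤ |a j0| := (Finset.mem_filter.1 hj).2
      have h2 : |a j0| ≤ 0 := by
        rw [← hA00] at hj0
        by_contra hc
        push Not at hc
        have : 0 < 4 * (d : ℝ) ^ 2 * |a j0| := by positivity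
        linarith
      have h3 : a j = 0 := abs_nonpos_iff.1 (h1.trans h2)
      apply nd_le_of_sup
      intro x
      rw [dd_ridge a p f hf, h3]
      simp
    intro j hj
    refine (hz j hj).trans ?_
    rw [← hA00, div_zero, zero_mul]
  · have hsup : ∀ j ∈ S, ∀ x, |dd j f x| ≤ 4 * (d : ℝ) ^ 2 * |a j| / A * B := by
      intro j hj x
      set c := ∑ l ∈ univ \ S, a l * sv (x l) with hc
      set P := p.comp (X + C c) with hP
      have hPd : P.degree ≤ d := by
        apply degree_le_of_natDegree_le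
        rw [hP]
        refine natDegree_comp_le.trans ?_
        rw [natDegree_X_add_C, mul_one]
        exact hp
      have hPe : ∀ t, P.eval t = p.eval (t + c) := by
        intro t
        rw [hP, eval_comp]
        simp
      obtain ⟨t0, ht0, hmax⟩ := IsCompact.exists_isMaxOn (isCompact_Icc (a := -A) (b := A))
        ⟨0, by constructor <;> linarith⟩ (f := fun t => |P.eval t|) (by fun_prop)
      set K := |P.eval t0| with hK
      have hK0 : 0 ≤ K := abs_nonneg _
      have hKt : ∀ t ∈ Set.Icc (-A) A, |P.eval t| ≤ K := fun t ht => hmax ht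
      have hder : ∀ t ∈ Set.Icc (-A) A, |(derivative P).eval t| ≤ 2 * (d : ℝ) ^ 2 / A * K := by
        intro t ht
        have h := markov_in d P hPd K (-A) A (by linarith) hKt t ht
        calc _ ≤ _ := h
          _ = _ := by field_simp; ring
      have hlip : ∀ s ∈ Set.Icc (-A) A, ∀ t ∈ Set.Icc (-A) A,
          |P.eval t - P.eval s| ≤ 2 * (d : ℝ) ^ 2 / A * K * |t - s| := by
        intro s hs t ht
        have h := Convex.norm_image_sub_le_of_norm_hasDerivWithin_le (f := fun t => P.eval t)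
          (f' := fun t => (derivative P).eval t) (s := Set.Icc (-A) A)
          (C := 2 * (d : ℝ) ^ 2 / A * K) (x := s) (y := t)
          (fun z _ => (P.hasDerivAt z).hasDerivWithinAt)
          (fun z hz => by rw [Real.norm_eq_abs]; exact hder z hz) (convex_Icc (-A) A) hs ht
        rw [Real.norm_eq_abs, Real.norm_eq_abs] at h
        exact h
      -- a value of `f` near the maximum
      obtain ⟨ε, hε, hε2⟩ := dense_sums (fun l => |a l|) |a j0| S (fun l _ => abs_nonneg _)
        (fun l hl => (Finset.mem_filter.1 hl).2) (abs_nonneg _) t0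
        (by rw [← hAS, abs_le]; exact ⟨ht0.1, ht0.2⟩)
      set t1 := ∑ l ∈ S, ε l * |a l| with ht1
      have ht1m : t1 ∈ Set.Icc (-A) A := by
        have h1 : |t1| ≤ A := by
          rw [ht1, hAS]
          refine (Finset.abs_sum_le_sum_abs _ _).trans ?_
          refine Finset.sum_le_sum fun l _ => ?_
          rw [abs_mul, abs_abs]
          rcases hε l with h | h <;> rw [h] <;> simp
        exact abs_le.1 h1
      have hf1 : |P.eval t1| ≤ B := by
        set y : ι → ℤˣ := fun l => if l ∈ S then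
          (if ε l = 1 then 1 else -1) * (if 0 ≤ a l then 1 else -1) else x l with hy
        have h1 := hB y
        rw [hf] at h1
        have h2 : ∑ l, a l * sv (y l) = t1 + c := by
          rw [← Finset.sum_sdiff (Finset.subset_univ S), add_comm]
          congr 1
          · rw [ht1]
            refine Finset.sum_congr rfl fun l hl => ?_
            simp only [hy, if_pos hl]
            rcases hε l with h | h <;> by_cases h0 : 0 ≤ a l
            · rw [if_pos h, if_pos h0, h, abs_of_nonneg h0]; simp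
            · rw [if_pos h, if_neg h0, h, abs_of_neg (not_le.1 h0)]; simp
            · have h' : ε l ≠ 1 := by rw [h]; norm_num
              rw [if_neg h', if_pos h0, h, abs_of_nonneg h0]; simp
            · have h' : ε l ≠ 1 := by rw [h]; norm_num
              rw [if_neg h', if_neg h0, h, abs_of_neg (not_le.1 h0)]; simp
          · refine Finset.sum_congr rfl fun l hl => ?_
            simp only [hy, if_neg (Finset.mem_sdiff.1 hl).2]
        rw [h2, ← hPe] at h1
        exact h1
      have hK2 : K ≤ 2 * B := by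
        have h1 := hlip t1 ht1m t0 ht0
        have h2 : K ≤ |P.eval t0 - P.eval t1| + |P.eval t1| := by
          have := abs_add_le (P.eval t0 - P.eval t1) (P.eval t1)
          simpa [hK] using this
        have h3 : |t0 - t1| ≤ |a j0| := by rw [abs_sub_comm]; exact hε2
        have h4 : 2 * (d : ℝ) ^ 2 / A * K * |t0 - t1| ≤ K / 2 := by
          calc 2 * (d : ℝ) ^ 2 / A * K * |t0 - t1| ≤ 2 * (d : ℝ) ^ 2 / A * K * |a j0| := by
                gcongr
            _ = (4 * (d : ℝ) ^ 2 * |a j0|) / A * (K / 2) := by ring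
            _ ≤ 1 * (K / 2) := by
                apply mul_le_mul_of_nonneg_right _ (by linarith)
                rw [div_le_one hApos]
                exact hj0
            _ = K / 2 := one_mul _
        linarith
      -- the two values
      set o := ∑ l ∈ S.erase j, a l * sv (x l) with ho
      have hoth : oth a j x = o + c := by
        unfold oth
        rw [ho, hc, add_comm]
        have h1 : (univ.erase j) = (univ \ S) ∪ (S.erase j) := by
          ext l
          simp only [Finset.mem_erase, Finset.mem_univ, and_true, Finset.mem_union,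
            Finset.mem_sdiff, true_and]
          constructor
          · intro h
            by_cases hl : l ∈ S
            · exact Or.inr ⟨h, hl⟩
            · exact Or.inl hl
          · rintro (h | h)
            · rintro rfl; exact h hj
            · exact h.1
        rw [h1, Finset.sum_union]
        rw [Finset.disjoint_left]
        intro l hl hl2
        exact (Finset.mem_sdiff.1 hl).2 (Finset.mem_of_mem_erase hl2)
      have hoA : |o| + |a j| ≤ A := by
        rw [hAS, ← Finset.sum_erase_add _ _ hj, ho]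
        apply add_le_add_left
        refine (Finset.abs_sum_le_sum_abs _ _).trans ?_
        refine Finset.sum_le_sum fun l _ => ?_
        rw [abs_mul]
        rcases sv_cases (x l) with h | h <;> rw [h] <;> simp
      have hplus : o + a j ∈ Set.Icc (-A) A := by
        have := abs_add_le o (a j)
        exact abs_le.1 (this.trans hoA)
      have hminus : o - a j ∈ Set.Icc (-A) A := by
        have := abs_sub o (a j)
        exact abs_le.1 (this.trans hoA)
      rw [dd_ridge a p f hf, hoth]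
      have e1 : p.eval (o + c + a j) = P.eval (o + a j) := by rw [hPe]; congr 1; ring
      have e2 : p.eval (o + c - a j) = P.eval (o - a j) := by rw [hPe]; congr 1; ring
      rw [e1, e2, abs_div, abs_two, div_le_iff₀ (by norm_num)]
      refine (hlip _ hminus _ hplus).trans ?_
      have e3 : |o + a j - (o - a j)| = 2 * |a j| := by
        have : o + a j - (o - a j) = 2 * a j := by ring
        rw [this, abs_mul, abs_two]
      rw [e3]
      calc 2 * (d : ℝ) ^ 2 / A * K * (2 * |a j|) ≤ 2 * (d : ℝ) ^ 2 / A * (2 * B) * (2 * |a j|) := by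
            gcongr
        _ = _ := by ring
    exact fun j hj => nd_le_of_sup f j _ (hsup j hj)

theorem small_sum (a : ι → ℝ) (d : ℕ) (j0 : ι) :
    ∑ j ∈ univ.filter (fun l => |a l| ≤ |a j0|), 4 * (d : ℝ) ^ 2 * |a j| / tail a j0 ≤
      4 * (d : ℝ) ^ 2 := by
  have h1 : ∑ j ∈ univ.filter (fun l => |a l| ≤ |a j0|), 4 * (d : ℝ) ^ 2 * |a j| / tail a j0 =
      4 * (d : ℝ) ^ 2 * (tail a j0 / tail a j0) := by
    rw [← Finset.sum_div, ← Finset.mul_sum, mul_div_assoc]
    rfl
  rw [h1]
  have h2 : tail a j0 / tail a j0 ≤ 1 := div_self_le_one _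
  nlinarith [sq_nonneg (d : ℝ)]

/-- Bounds for the derivatives which depend only on the weights and the degree. -/
theorem uniform (a : ι → ℝ) (d : ℕ) (hd : 1 ≤ d) : ∃ c : ι → ℝ, (∀ j, 0 ≤ c j) ∧
    ∑ j, c j ≤ 32 * (d : ℝ) ^ 3 ∧
    ∀ (p : ℝ[X]) (f : (ι → ℤˣ) → ℝ) (B : ℝ), p.natDegree ≤ d →
      (∀ x, f x = p.eval (∑ j, a j * sv (x j))) → (∀ x, |f x| ≤ B) → ∀ j, nd f j ≤ c j * B := by
  have hd1 : (1 : ℝ) ≤ d := by exact_mod_cast hd
  have hd3 : (d : ℝ) ^ 2 ≤ (d : ℝ) ^ 3 := pow_le_pow_right₀ hd1 (by norm_num)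
  have hbig0 : ∀ W j, 0 ≤ bigc a d W j := by
    intro W j
    unfold bigc
    positivity
  by_cases hex : ∃ j0, 4 * (d : ℝ) ^ 2 * |a j0| ≤ tail a j0
  · -- the heaviest index of this kind
    obtain ⟨j0, hj0, hmax⟩ := Finset.exists_max_image
      (univ.filter fun j => 4 * (d : ℝ) ^ 2 * |a j| ≤ tail a j) (fun l => |a l|)
      (by obtain ⟨j0, h⟩ := hex; exact ⟨j0, Finset.mem_filter.2 ⟨Finset.mem_univ _, h⟩⟩)
    have hj0' := (Finset.mem_filter.1 hj0).2
    have ht0 : 0 ≤ tail a j0 := Finset.sum_nonneg fun l _ => abs_nonneg _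
    set W := univ.filter fun l => ¬ |a l| ≤ |a j0| with hWdef
    have hW : ∀ j ∈ W, tail a j < 4 * (d : ℝ) ^ 2 * |a j| := by
      intro j hj
      have h3 := (Finset.mem_filter.1 hj).2
      by_contra hc
      push Not at hc
      exact h3 (hmax j (Finset.mem_filter.2 ⟨Finset.mem_univ _, hc⟩))
    refine ⟨fun j => if |a j| ≤ |a j0| then 4 * (d : ℝ) ^ 2 * |a j| / tail a j0 else bigc a d W j,
      ?_, ?_, ?_⟩
    · intro j
      simp only
      split_ifs
      · positivity
      · exact hbig0 W j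
    · rw [Finset.sum_ite]
      have h1 := small_sum a d j0
      have h2 := big_sum a d hd W
      have h4 : 4 * (d : ℝ) ^ 2 ≤ 4 * (d : ℝ) ^ 3 := by gcongr
      linarith
    · intro p f B hp hf hB j
      simp only
      by_cases h : |a j| ≤ |a j0|
      · rw [if_pos h]
        exact small_term a d hd j0 hj0' p hp f hf B hB j
          (Finset.mem_filter.2 ⟨Finset.mem_univ _, h⟩)
      · rw [if_neg h]
        exact big_term a d hd W hW p hp f hf B hB j
          (Finset.mem_filter.2 ⟨Finset.mem_univ _, h⟩)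
  · push Not at hex
    refine ⟨bigc a d univ, hbig0 univ, ?_, ?_⟩
    · have h2 := big_sum a d hd univ
      have h3 : 0 ≤ (d : ℝ) ^ 3 := by positivity
      linarith
    · intro p f B hp hf hB j
      exact big_term a d hd univ (fun j _ => hex j) p hp f hf B hB j (Finset.mem_univ j)

end Pool.Agent.Hp22AA
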