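import Mathlib
import Pool.Agent.Hp22AA.Ridge2

/-!
The degree of a polynomial of one linear form, and the final form.
-/

set_option autoImplicit false
set_option linter.unusedSectionVars false

namespace Pool.Agent.Hp22AA

open Finset Polynomial Pool.Agent.Hp22AAD

/-- central difference -/
noncomputable def cdiff (b : ℝ) (q : ℝ[X]) : ℝ[X] := C (1 / 2) * (taylor b q - taylor (-b) q)

theorem cdiff_eval (b : ℝ) (q : ℝ[X]) (t : ℝ) :
    (cdiff b q).eval t = (q.eval (t + b) - q.eval (t - b)) / 2 := by
  unfold cdiff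
  rw [eval_mul, eval_C, eval_sub, taylor_eval, taylor_eval]
  ring_nf

theorem cdiff_coeff (b : ℝ) (q : ℝ[X]) (n : ℕ) :
    (cdiff b q).coeff n = ((hasseDeriv n q).eval b - (hasseDeriv n q).eval (-b)) / 2 := by
  unfold cdiff
  rw [coeff_C_mul, coeff_sub, taylor_coeff, taylor_coeff]
  ring

theorem cdiff_deg (b : ℝ) (hb : b ≠ 0) (q : ℝ[X]) (D : ℕ) (hq : q.natDegree = D + 1) :
    (cdiff b q).natDegree = D ∧ cdiff b q ≠ 0 := by
  have hle : (cdiff b q).natDegree ≤ D := by
    rw [natDegree_le_iff_coeff_eq_zero]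
    intro N hN
    rw [cdiff_coeff]
    have h1 : (hasseDeriv N q).natDegree ≤ 0 := by
      refine (natDegree_hasseDeriv_le q N).trans ?_
      omega
    rw [eq_C_of_natDegree_le_zero h1]
    simp
  have hco : (cdiff b q).coeff D ≠ 0 := by
    rw [cdiff_coeff]
    have h1 : (hasseDeriv D q).natDegree ≤ 1 := by
      refine (natDegree_hasseDeriv_le q D).trans ?_
      omega
    rw [eq_X_add_C_of_natDegree_le_one h1]
    have h2 : (hasseDeriv D q).coeff 1 ≠ 0 := by
      rw [hasseDeriv_coeff]
      apply mul_ne_zero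
      · have : 0 < (1 + D).choose D := Nat.choose_pos (by omega)
        exact_mod_cast this.ne'
      · rw [add_comm, ← hq]
        rw [coeff_natDegree, Ne, leadingCoeff_eq_zero]
        rintro rfl
        simp at hq
    simp only [eval_add, eval_mul, eval_C, eval_X]
    have h3 : ((hasseDeriv D q).coeff 1 * b + (hasseDeriv D q).coeff 0 -
        ((hasseDeriv D q).coeff 1 * -b + (hasseDeriv D q).coeff 0)) / 2 =
        (hasseDeriv D q).coeff 1 * b := by ring
    rw [h3]
    exact mul_ne_zero h2 hb
  refine ⟨le_antisymm hle (le_natDegree_of_ne_zero hco), ?_⟩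
  intro h0
  rw [h0] at hco
  simp at hco

variable {ι : Type} [Fintype ι] [DecidableEq ι]

theorem top_coeff (a : ι → ℝ) (S : Finset ι) : (∀ j ∈ S, a j ≠ 0) → ∀ (R : Finset ι) (q : ℝ[X]),
    S ⊆ R → q.natDegree = S.card → q ≠ 0 →
      av (fun x : ι → ℤˣ => q.eval (∑ l ∈ R, a l * sv (x l)) * chi S x) ≠ 0 := by
  induction S using Finset.induction_on with
  | empty =>
    intro _ R q _ hq hq0
    rw [Finset.card_empty] at hq
    have h1 := eq_C_of_natDegree_le_zero hq.le
    have h2 : ∀ x : ι → ℤˣ, q.eval (∑ l ∈ R, a l * sv (x l)) * chi ∅ x = q.coeff 0 := by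
      intro x
      rw [chi_empty, mul_one, h1]
      simp
    simp only [h2, av_const]
    intro h3
    apply hq0
    rw [h1, h3, C_0]
  | insert j S hj ih =>
    intro ha R q hR hq hq0
    rw [Finset.card_insert_of_notMem hj] at hq
    have haj : a j ≠ 0 := ha j (Finset.mem_insert_self _ _)
    have hjR : j ∈ R := hR (Finset.mem_insert_self _ _)
    obtain ⟨h1, h2⟩ := cdiff_deg (a j) haj q S.card hq
    have h3 := ih (fun i hi => ha i (Finset.mem_insert_of_mem hi)) (R.erase j) (cdiff (a j) q)
      (by
        intro i hi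
        refine Finset.mem_erase.2 ⟨?_, hR (Finset.mem_insert_of_mem hi)⟩
        rintro rfl; exact hj hi) h1 h2
    have h4 : av (fun x : ι → ℤˣ => q.eval (∑ l ∈ R, a l * sv (x l)) * chi (insert j S) x) =
        av (fun x : ι → ℤˣ => (cdiff (a j) q).eval (∑ l ∈ R.erase j, a l * sv (x l)) * chi S x) := by
      set g : (ι → ℤˣ) → ℝ := fun x =>
        q.eval (∑ l ∈ R, a l * sv (x l)) * chi (insert j S) x with hg
      have e1 : av g = av (fun x => (g x + g (flip {j} x)) / 2) := by
        have h5 : av (fun x => (g x + g (flip {j} x)) / 2) =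
            av (fun x => (1 / 2) * g x + (1 / 2) * g (flip {j} x)) := by
          congr 1; funext x; ring
        rw [h5, av_add, av_mul, av_mul, av_flip {j} g]
        ring
      rw [e1]
      congr 1
      funext x
      simp only [hg]
      have e2 : ∑ l ∈ R, a l * sv (x l) = ∑ l ∈ R.erase j, a l * sv (x l) + a j * sv (x j) :=
        (Finset.sum_erase_add _ _ hjR).symm
      have e3 : ∑ l ∈ R, a l * sv (flip {j} x l) =
          ∑ l ∈ R.erase j, a l * sv (x l) - a j * sv (x j) := by
        rw [← Finset.sum_erase_add _ _ hjR]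
        have : ∑ l ∈ R.erase j, a l * sv (flip {j} x l) = ∑ l ∈ R.erase j, a l * sv (x l) := by
          refine Finset.sum_congr rfl fun l hl => ?_
          have hne := Finset.ne_of_mem_erase hl
          simp [flip, hne]
        rw [this]
        simp [flip, sv_neg]
        ring
      have e4 : chi S (flip {j} x) = chi S x := by
        unfold chi
        refine Finset.prod_congr rfl fun l hl => ?_
        have hne : l ≠ j := by rintro rfl; exact hj hl
        simp [flip, hne]
      have e5 : sv (flip {j} x j) = - sv (x j) := by simp [flip, sv_neg]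
      rw [e2, e3, chi_insert hj, chi_insert hj, e4, e5, cdiff_eval]
      rcases sv_cases (x j) with h | h
      · rw [h, sv_one, mul_one]; ring
      · rw [h, sv_neg_one, mul_neg_one, sub_neg_eq_add, ← sub_eq_add_neg]; ring
    rw [h4]
    exact h3

/-- The degree of a polynomial of a linear form. -/
theorem deg_ridge (a : ι → ℝ) (p : ℝ[X]) (f : (ι → ℤˣ) → ℝ)
    (hf : ∀ x, f x = p.eval (∑ j, a j * sv (x j)))
    (hp : p.natDegree ≤ (univ.filter fun j => a j ≠ 0).card) (d : ℕ)
    (hd : ∀ S : Finset ι, d < S.card → fc f S = 0) : p.natDegree ≤ d := by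
  by_contra hc
  push Not at hc
  obtain ⟨S, hS, hSc⟩ := Finset.exists_subset_card_eq hp
  have hp0 : p ≠ 0 := by
    rintro rfl
    simp at hc
  have h1 := top_coeff a S (fun j hj => (Finset.mem_filter.1 (hS hj)).2) univ p
    (Finset.subset_univ S) hSc.symm hp0
  apply h1
  have h2 := hd S (by rw [hSc]; exact hc)
  unfold fc at h2
  rw [← h2]
  congr 1
  funext x
  rw [hf]

end Pool.Agent.Hp22AA
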