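import Mathlib
import Pool.Agent.Hp22AA.RidgeDeg

/-!
Functions which are polynomials in linear forms of disjoint blocks of variables.
-/

set_option autoImplicit false
set_option linter.unusedSectionVars false

namespace Pool.Agent.Hp22AA

open Finset Polynomial Pool.Agent.Hp22AAD

variable {ι : Type} [Fintype ι] [DecidableEq ι]

/-- `x` on `S`, `z` outside `S` -/
def mix (S : Finset ι) (z x : ι → ℤˣ) (l : ι) : ℤˣ := if l ∈ S then x l else z l

theorem mix_mix (S : Finset ι) (z x : ι → ℤˣ) : mix S (mix S x z) (mix S z x) = x := by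
  funext l
  unfold mix
  by_cases h : l ∈ S <;> simp [h]

theorem av_mix (S : Finset ι) (g : (ι → ℤˣ) → ℝ) :
    av (fun z => av (fun x => g (mix S z x))) = av g := by
  have h1 : ∑ z : ι → ℤˣ, ∑ x : ι → ℤˣ, g (mix S z x) = ∑ z : ι → ℤˣ, ∑ x : ι → ℤˣ, g x := by
    rw [← Fintype.sum_prod_type' (f := fun z x => g (mix S z x)),
      ← Fintype.sum_prod_type' (f := fun (_ : ι → ℤˣ) x => g x)]
    refine Finset.sum_bij' (fun q _ => (mix S q.2 q.1, mix S q.1 q.2))
      (fun q _ => (mix S q.2 q.1, mix S q.1 q.2)) ?_ ?_ ?_ ?_ ?_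
    · intro _ _; exact Finset.mem_univ _
    · intro _ _; exact Finset.mem_univ _
    · rintro ⟨z, x⟩ _
      simp only [mix_mix]
    · rintro ⟨z, x⟩ _
      simp only [mix_mix]
    · rintro ⟨z, x⟩ _; rfl
  unfold av
  rw [← Finset.sum_div, h1, Finset.sum_const, Finset.card_univ, nsmul_eq_mul, card_cube]
  field_simp

theorem mix_update (S : Finset ι) (z x : ι → ℤˣ) (j : ι) (hj : j ∈ S) (u : ℤˣ) :
    mix S z (Function.update x j u) = Function.update (mix S z x) j u := by
  funext l
  unfold mix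
  by_cases hl : l = j
  · subst hl
    rw [if_pos hj, Function.update_self, Function.update_self]
  · by_cases h : l ∈ S
    · rw [if_pos h, Function.update_of_ne hl, Function.update_of_ne hl, if_pos h]
    · rw [if_neg h, Function.update_of_ne hl, if_neg h]

theorem nd_mix (f : (ι → ℤˣ) → ℝ) (S : Finset ι) (j : ι) (hj : j ∈ S) (C : ℝ) (hC : 0 ≤ C)
    (h : ∀ z, nd (fun x => f (mix S z x)) j ≤ C) : nd f j ≤ C := by
  unfold nd
  rw [Real.sqrt_le_left hC, ← av_mix S]
  calc av (fun z => av (fun x => dd j f (mix S z x) ^ 2)) ≤ av (fun _ : ι → ℤˣ => C ^ 2) := by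
        apply av_mono
        intro z
        have h1 := h z
        unfold nd at h1
        rw [Real.sqrt_le_left hC] at h1
        refine le_trans (le_of_eq ?_) h1
        congr 1
        funext x
        unfold dd
        simp only [mix_update S z x j hj]
    _ = C ^ 2 := av_const _

theorem chi_mix (S A : Finset ι) (z x : ι → ℤˣ) :
    chi A (mix S z x) = chi (A ∩ S) x * chi (A \ S) z := by
  unfold chi
  rw [← Finset.prod_inter_mul_prod_sdiff A S]
  congr 1
  · refine Finset.prod_congr rfl fun l hl => ?_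
    rw [mix, if_pos (Finset.mem_inter.1 hl).2]
  · refine Finset.prod_congr rfl fun l hl => ?_
    rw [mix, if_neg (Finset.mem_sdiff.1 hl).2]

theorem deg_mix (f : (ι → ℤˣ) → ℝ) (d : ℕ) (hd : ∀ S : Finset ι, d < S.card → fc f S = 0)
    (S : Finset ι) (z : ι → ℤˣ) (A : Finset ι) (hA : d < A.card) :
    fc (fun x => f (mix S z x)) A = 0 := by
  have h1 : (fun x => f (mix S z x)) = fun x =>
      ∑ E, (fc f E * chi (E \ S) z) * chi (E ∩ S) x := by
    funext x
    rw [fc_inv f (mix S z x)]
    refine Finset.sum_congr rfl fun E _ => ?_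
    rw [chi_mix]; ring
  rw [h1, fc]
  have h2 : ∀ x : ι → ℤˣ, (∑ E, (fc f E * chi (E \ S) z) * chi (E ∩ S) x) * chi A x =
      ∑ E, (fc f E * chi (E \ S) z) * (chi (E ∩ S) x * chi A x) := by
    intro x
    rw [Finset.sum_mul]
    exact Finset.sum_congr rfl fun E _ => by ring
  simp only [h2]
  rw [av_sum]
  apply Finset.sum_eq_zero
  intro E _
  rw [av_mul, av_chi_chi]
  by_cases h3 : E ∩ S = A
  · have h4 : d < E.card := by
      refine lt_of_lt_of_le hA ?_
      rw [← h3]
      exact Finset.card_le_card Finset.inter_subset_left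
    rw [hd E h4]; ring
  · rw [if_neg h3, mul_zero]

/-- `f` is a polynomial in the linear form of each block. -/
theorem blocks_sum (k : ℕ) (typ : ι → Fin k) (a : ι → ℝ) (f : (ι → ℤˣ) → ℝ)
    (hf : ∀ (t : Fin k) (z : ι → ℤˣ), ∃ q : ℝ[X],
      q.natDegree ≤ (univ.filter fun l => typ l = t ∧ a l ≠ 0).card ∧
      ∀ x : ι → ℤˣ, (∀ l, typ l ≠ t → x l = z l) →
        f x = q.eval (∑ l ∈ univ.filter (fun l => typ l = t), a l * sv (x l)))
    (d : ℕ) (h1d : 1 ≤ d) (hd : ∀ S : Finset ι, d < S.card → fc f S = 0) :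
    ∑ j, nd f j ≤ 32 * k * (d : ℝ) ^ 3 * supNorm f := by
  have hsn := supNorm_nonneg f
  have hblock : ∀ t : Fin k, ∑ j ∈ univ.filter (fun l => typ l = t), nd f j ≤
      32 * (d : ℝ) ^ 3 * supNorm f := by
    intro t
    set S := univ.filter (fun l => typ l = t) with hS
    set b : ι → ℝ := fun l => if typ l = t then a l else 0 with hb
    obtain ⟨c, hc0, hcs, hc⟩ := uniform b d h1d
    have hz : ∀ z : ι → ℤˣ, ∀ j, nd (fun x => f (mix S z x)) j ≤ c j * supNorm f := by
      intro z
      obtain ⟨q, hq, hqf⟩ := hf t z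
      have hsum : ∀ x : ι → ℤˣ, ∑ l ∈ univ.filter (fun l => typ l = t), a l * sv (mix S z x l) =
          ∑ l, b l * sv (x l) := by
        intro x
        rw [Finset.sum_filter]
        refine Finset.sum_congr rfl fun l _ => ?_
        simp only [hb]
        by_cases h : typ l = t
        · have hl : l ∈ S := Finset.mem_filter.2 ⟨Finset.mem_univ _, h⟩
          rw [if_pos h, if_pos h, mix, if_pos hl]
        · rw [if_neg h, if_neg h, zero_mul]
      have hfx : ∀ x, f (mix S z x) = q.eval (∑ l, b l * sv (x l)) := by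
        intro x
        rw [← hsum x]
        apply hqf
        intro l hl
        rw [mix, if_neg]
        intro h
        exact hl (Finset.mem_filter.1 h).2
      have hqd : q.natDegree ≤ d := by
        apply deg_ridge b q (fun x => f (mix S z x)) hfx _ d (deg_mix f d hd S z)
        refine hq.trans (Finset.card_le_card ?_)
        intro l hl
        have h1 := (Finset.mem_filter.1 hl).2
        refine Finset.mem_filter.2 ⟨Finset.mem_univ _, ?_⟩
        simp only [hb, if_pos h1.1]
        exact h1.2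
      exact hc q _ _ hqd hfx (fun x => le_supNorm f _)
    calc ∑ j ∈ S, nd f j ≤ ∑ j ∈ S, c j * supNorm f := by
          refine Finset.sum_le_sum fun j hj => ?_
          exact nd_mix f S j hj _ (mul_nonneg (hc0 j) hsn) fun z => hz z j
      _ = (∑ j ∈ S, c j) * supNorm f := by rw [Finset.sum_mul]
      _ ≤ (∑ j, c j) * supNorm f := by
          apply mul_le_mul_of_nonneg_right _ hsn
          exact Finset.sum_le_sum_of_subset_of_nonneg (Finset.subset_univ _) fun j _ _ => hc0 j
      _ ≤ _ := mul_le_mul_of_nonneg_right hcs hsn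
  calc ∑ j, nd f j = ∑ t : Fin k, ∑ j ∈ univ.filter (fun l => typ l = t), nd f j :=
        (Finset.sum_fiberwise univ typ (nd f)).symm
    _ ≤ ∑ _t : Fin k, 32 * (d : ℝ) ^ 3 * supNorm f := Finset.sum_le_sum fun t _ => hblock t
    _ = _ := by
        rw [Finset.sum_const, Finset.card_univ, Fintype.card_fin, nsmul_eq_mul]
        ring

theorem blocks_var (k : ℕ) (typ : ι → Fin k) (a : ι → ℝ) (f : (ι → ℤˣ) → ℝ)
    (hf : ∀ (t : Fin k) (z : ι → ℤˣ), ∃ q : ℝ[X],
      q.natDegree ≤ (univ.filter fun l => typ l = t ∧ a l ≠ 0).card ∧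
      ∀ x : ι → ℤˣ, (∀ l, typ l ≠ t → x l = z l) →
        f x = q.eval (∑ l ∈ univ.filter (fun l => typ l = t), a l * sv (x l)))
    (d : ℕ) (hd : DegLE f d) :
    (∑ j, nd f j ≤ 32 * k * (d : ℝ) ^ 3 * supNorm f) ∧
    variance f ≤ 32 * k * (d : ℝ) ^ 3 * supNorm f * maxDer f ∧
    variance f ≤ (d : ℝ) ^ (k + 8) * supNorm f * maxDer f := by
  have hd' : ∀ S : Finset ι, d < S.card → fc f S = 0 := hd
  have hsn := supNorm_nonneg f
  have hmo := maxDer_nonneg f
  rcases Nat.eq_zero_or_pos d with h0 | h0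
  · subst h0
    have hv := var_zero f hd'
    have hz : ∀ j, nd f j = 0 := by
      intro j
      have h1 : ∀ x, dd j f x = 0 := by
        intro x
        rw [dd_eq]
        apply Finset.sum_eq_zero
        intro S _
        by_cases h : j ∈ S
        · rw [if_pos h, hd' S (Finset.card_pos.2 ⟨j, h⟩), zero_mul]
        · rw [if_neg h]
      unfold nd
      simp only [h1]
      rw [show (0 : ℝ) ^ 2 = 0 by norm_num, av_const, Real.sqrt_zero]
    refine ⟨?_, ?_, ?_⟩
    · rw [Finset.sum_congr rfl fun j _ => hz j]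
      simp
    · rw [hv]; positivity
    · rw [hv]; positivity
  · have hs := blocks_sum k typ a f hf d h0 hd'
    have hv : variance f ≤ 32 * k * (d : ℝ) ^ 3 * supNorm f * maxDer f := by
      calc variance f ≤ ∑ j, av (fun x => dd j f x ^ 2) := poincare f
        _ ≤ ∑ j, nd f j * maxDer f := by
            refine Finset.sum_le_sum fun j _ => ?_
            have h2 : av (fun x => dd j f x ^ 2) = nd f j * nd f j := by
              unfold nd
              rw [Real.mul_self_sqrt]
              exact av_nonneg fun x => sq_nonneg _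
            rw [h2]
            exact mul_le_mul_of_nonneg_left (le_maxDer f j) (Real.sqrt_nonneg _)
        _ = (∑ j, nd f j) * maxDer f := by rw [Finset.sum_mul]
        _ ≤ _ := mul_le_mul_of_nonneg_right hs hmo
    refine ⟨hs, hv, ?_⟩
    rcases Nat.lt_or_ge 1 d with h1 | h1
    · refine hv.trans ?_
      apply mul_le_mul_of_nonneg_right _ hmo
      apply mul_le_mul_of_nonneg_right _ hsn
      have h2 : (2 : ℝ) ≤ d := by exact_mod_cast h1
      have h3 : (32 : ℝ) ≤ (d : ℝ) ^ 5 := by
        calc (32 : ℝ) = 2 ^ 5 := by norm_num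
          _ ≤ (d : ℝ) ^ 5 := pow_le_pow_left₀ (by norm_num) h2 5
      have h4 : (k : ℝ) ≤ (d : ℝ) ^ k := by
        calc (k : ℝ) ≤ (2 : ℝ) ^ k := by exact_mod_cast (Nat.lt_two_pow_self (n := k)).le
          _ ≤ (d : ℝ) ^ k := pow_le_pow_left₀ (by norm_num) h2 k
      calc 32 * (k : ℝ) * (d : ℝ) ^ 3 ≤ (d : ℝ) ^ 5 * (d : ℝ) ^ k * (d : ℝ) ^ 3 := by gcongr
        _ = (d : ℝ) ^ (k + 8) := by ring
    · have h2 : d = 1 := by omega
      subst h2
      rw [Nat.cast_one, one_pow, one_mul]
      exact deg_one f hd'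

end Pool.Agent.Hp22AA
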