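import Mathlib
import Pool.Agent.Hp22AA.Cube
import Pool.Agent.Hp22AA.Poly

/-!
The sum of the absolute values of the discrete derivatives of a function of degree at most `d`.
-/

set_option autoImplicit false
set_option linter.unusedSectionVars false

namespace Pool.Agent.Hp22AA

open Finset Polynomial

variable {ι : Type*} [Fintype ι] [DecidableEq ι]

/-- multilinear extension -/
noncomputable def ext (f : (ι → ℤˣ) → ℝ) (y : ι → ℝ) : ℝ :=
  ∑ S, fc f S * ∏ i ∈ S, y i

theorem ext_eq (f : (ι → ℤˣ) → ℝ) (y : ι → ℝ) :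
    ext f y = ∑ x, f x * ∏ i, ((1 + sv (x i) * y i) / 2) := by
  have h : ∀ x : ι → ℤˣ, f x * ∏ i, ((1 + sv (x i) * y i) / 2) =
      ∑ S, fc f S * (chi S x * ∏ i, ((1 + sv (x i) * y i) / 2)) := by
    intro x
    have h0 := fc_inv f x
    calc f x * ∏ i, ((1 + sv (x i) * y i) / 2)
        = (∑ S, fc f S * chi S x) * ∏ i, ((1 + sv (x i) * y i) / 2) := by rw [← h0]
      _ = _ := by
        rw [Finset.sum_mul]
        exact Finset.sum_congr rfl fun S _ => by ring
  simp only [h]
  rw [Finset.sum_comm]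
  unfold ext
  refine Finset.sum_congr rfl fun S _ => ?_
  rw [← Finset.mul_sum, sum_chi_prod]

theorem abs_ext_le (f : (ι → ℤˣ) → ℝ) (B : ℝ) (hB : ∀ x, |f x| ≤ B) (y : ι → ℝ)
    (hy : ∀ i, |y i| ≤ 1) : |ext f y| ≤ B := by
  rw [ext_eq]
  have hpos : ∀ x : ι → ℤˣ, 0 ≤ ∏ i, ((1 + sv (x i) * y i) / 2) := by
    intro x
    refine Finset.prod_nonneg fun i _ => ?_
    have h1 := abs_le.1 (hy i)
    rcases sv_cases (x i) with h | h <;> rw [h] <;> simp <;> linarith
  have hsum : ∑ x : ι → ℤˣ, ∏ i : ι, ((1 + sv (x i) * y i) / 2) = 1 := by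
    have := sum_chi_prod (∅ : Finset ι) y
    simpa [chi_empty] using this
  calc |∑ x, f x * ∏ i, ((1 + sv (x i) * y i) / 2)|
      ≤ ∑ x, |f x * ∏ i, ((1 + sv (x i) * y i) / 2)| := Finset.abs_sum_le_sum_abs _ _
    _ ≤ ∑ x : ι → ℤˣ, B * ∏ i, ((1 + sv (x i) * y i) / 2) := by
        refine Finset.sum_le_sum fun x _ => ?_
        rw [abs_mul, abs_of_nonneg (hpos x)]
        exact mul_le_mul_of_nonneg_right (hB x) (hpos x)
    _ = B := by rw [← Finset.mul_sum, hsum, mul_one]

/-- The signed sum of derivatives over a set of coordinates. -/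
theorem sum_signed_le (f : (ι → ℤˣ) → ℝ) (d : ℕ) (hd : ∀ S : Finset ι, d < S.card →
    fc f S = 0) (B : ℝ) (hB : ∀ x, |f x| ≤ B) (x : ι → ℤˣ) (J : Finset ι) :
    ∑ j ∈ J, sv (x j) * dd j f x ≤ (d : ℝ) ^ 2 * B := by
  classical
  set P : ℝ[X] := ∑ S : Finset ι, C (fc f S * chi S x) * X ^ (S ∩ J).card with hP
  have hdeg : P.degree ≤ d := by
    rw [hP]
    apply (Polynomial.degree_sum_le _ _).trans
    apply Finset.sup_le
    intro S _
    by_cases hS : d < S.card
    · rw [hd S hS]; simp
    · refine (Polynomial.degree_C_mul_X_pow_le _ _).trans ?_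
      have : (S ∩ J).card ≤ d := (Finset.card_le_card Finset.inter_subset_left).trans (not_lt.1 hS)
      exact_mod_cast this
  have heval : ∀ t : ℝ, P.eval t = ext f (fun i => if i ∈ J then sv (x i) * t else sv (x i)) := by
    intro t
    rw [hP, Polynomial.eval_finsetSum]
    unfold ext
    refine Finset.sum_congr rfl fun S _ => ?_
    simp only [eval_mul, eval_C, eval_pow, eval_X]
    have h1 : ∏ i ∈ S, (if i ∈ J then sv (x i) * t else sv (x i)) =
        chi S x * t ^ (S ∩ J).card := by
      have h2 : ∀ i ∈ S, (if i ∈ J then sv (x i) * t else sv (x i)) =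
          sv (x i) * (if i ∈ J then t else 1) := by
        intro i _
        by_cases h : i ∈ J <;> simp [h]
      rw [Finset.prod_congr rfl h2, Finset.prod_mul_distrib, Finset.prod_ite_mem,
        Finset.prod_const]
      rfl
    rw [h1]; ring
  have hbd : ∀ t ∈ Set.Icc (-1 : ℝ) 1, |P.eval t| ≤ B := by
    intro t ht
    rw [heval]
    apply abs_ext_le f B hB
    intro i
    have h3 : |sv (x i)| = 1 := by
      rcases sv_cases (x i) with h | h <;> rw [h] <;> simp
    by_cases h : i ∈ J
    · simp only [h, if_true]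
      rw [abs_mul, h3, one_mul]
      exact abs_le.2 ht
    · simp only [h, if_false]
      exact h3.le
  have hder : (derivative P).eval 1 = ∑ j ∈ J, sv (x j) * dd j f x := by
    rw [hP, derivative_sum, Polynomial.eval_finsetSum]
    have h1 : ∀ S : Finset ι,
        (derivative (C (fc f S * chi S x) * X ^ (S ∩ J).card)).eval 1 =
          ∑ j ∈ J, if j ∈ S then fc f S * chi S x else 0 := by
      intro S
      rw [derivative_C_mul, derivative_X_pow]
      simp only [eval_mul, eval_C, eval_pow, eval_X, one_pow, mul_one]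
      rw [Finset.sum_ite_mem, Finset.sum_const, nsmul_eq_mul, Finset.inter_comm J S]
      simp [mul_comm]
    rw [Finset.sum_congr rfl fun S _ => h1 S, Finset.sum_comm]
    refine Finset.sum_congr rfl fun j _ => ?_
    rw [dd_eq, Finset.mul_sum]
    refine Finset.sum_congr rfl fun S _ => ?_
    by_cases h : j ∈ S
    · rw [if_pos h, if_pos h]
      have : chi S x = sv (x j) * chi (S.erase j) x := by
        conv_lhs => rw [← Finset.insert_erase h]
        rw [chi_insert (Finset.notMem_erase j S)]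
      rw [this]; ring
    · rw [if_neg h, if_neg h, mul_zero]
  rw [← hder]
  exact markov_end d P hdeg B hbd

theorem sum_abs_dd_le (f : (ι → ℤˣ) → ℝ) (d : ℕ) (hd : ∀ S : Finset ι, d < S.card →
    fc f S = 0) (B : ℝ) (hB : ∀ x, |f x| ≤ B) (x : ι → ℤˣ) :
    ∑ j, |dd j f x| ≤ 2 * (d : ℝ) ^ 2 * B := by
  classical
  have h1 := sum_signed_le f d hd B hB x (univ.filter fun j => 0 ≤ sv (x j) * dd j f x)
  have h2 := sum_signed_le (fun x => - f x) d ?_ B ?_ x
    (univ.filter fun j => ¬ 0 ≤ sv (x j) * dd j f x)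
  · have h3 : ∀ j, dd j (fun x => - f x) x = - dd j f x := by
      intro j; unfold dd; ring
    simp only [h3] at h2
    have h4 : ∀ j, |dd j f x| = |sv (x j) * dd j f x| := by
      intro j
      rw [abs_mul]
      have : |sv (x j)| = 1 := by
        rcases sv_cases (x j) with h | h <;> rw [h] <;> simp
      rw [this, one_mul]
    rw [Finset.sum_congr rfl fun j _ => h4 j,
      ← Finset.sum_filter_add_sum_filter_not univ (fun j => 0 ≤ sv (x j) * dd j f x)]
    have h5 : ∑ j ∈ univ.filter (fun j => 0 ≤ sv (x j) * dd j f x), |sv (x j) * dd j f x| =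
        ∑ j ∈ univ.filter (fun j => 0 ≤ sv (x j) * dd j f x), sv (x j) * dd j f x := by
      refine Finset.sum_congr rfl fun j hj => ?_
      exact abs_of_nonneg (Finset.mem_filter.1 hj).2
    have h6 : ∑ j ∈ univ.filter (fun j => ¬ 0 ≤ sv (x j) * dd j f x), |sv (x j) * dd j f x| =
        ∑ j ∈ univ.filter (fun j => ¬ 0 ≤ sv (x j) * dd j f x), sv (x j) * -dd j f x := by
      refine Finset.sum_congr rfl fun j hj => ?_
      rw [abs_of_neg (not_le.1 (Finset.mem_filter.1 hj).2)]
      ring
    rw [h5, h6]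
    linarith
  · intro S hS
    have : fc (fun x => - f x) S = - fc f S := by
      unfold fc
      rw [← neg_one_mul, ← av_mul]
      congr 1
      funext x; ring
    rw [this, hd S hS, neg_zero]
  · intro x; rw [abs_neg]; exact hB x

end Pool.Agent.Hp22AA
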