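import Mathlib
import Pool.Agent.Hp22AA.SumL1
import Pool.Agent.Hp22AA.RidgeK

/-!
Functions with dominating coordinates.
-/

set_option autoImplicit false
set_option linter.unusedSectionVars false

namespace Pool.Agent.Hp22AA

open Finset Pool.Agent.Hp22AAD

variable {ι : Type} [Fintype ι] [DecidableEq ι]

theorem dd_flip (f : (ι → ℤˣ) → ℝ) (j : ι) (x : ι → ℤˣ) : dd j f (flip {j} x) = dd j f x := by
  unfold dd
  have : ∀ u : ℤˣ, Function.update (flip {j} x) j u = Function.update x j u := by
    intro u
    funext l
    by_cases h : l = j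
    · subst h; rw [Function.update_self, Function.update_self]
    · rw [Function.update_of_ne h, Function.update_of_ne h]
      simp [flip, h]
  rw [this, this]

theorem dominated (f : (ι → ℤˣ) → ℝ) (d : ℕ) (hd : DegLE f d) (R : Finset ι)
    (h : ∀ j, ∃ i ∈ R, ∃ u : ℤˣ, (i = j → u = 1) ∧
      ∀ x : ι → ℤˣ, x i = u * x j → |dd j f x| ≤ |dd i f x|) :
    variance f ≤ 4 * (d : ℝ) ^ 2 * supNorm f * av (fun x => ⨆ i : R, |dd (i : ι) f x|) ∧
    variance f ≤ 4 * (d : ℝ) ^ 2 * Real.sqrt R.card * supNorm f * maxDer f := by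
  have hd' : ∀ S : Finset ι, d < S.card → fc f S = 0 := hd
  have hsn := supNorm_nonneg f
  have hmo := maxDer_nonneg f
  choose dom hdomR u hu hdom using h
  set m : (ι → ℤˣ) → ℝ := fun x => ⨆ i : R, |dd (i : ι) f x| with hm
  have hm0 : ∀ x, 0 ≤ m x := fun x => Real.iSup_nonneg fun _ => abs_nonneg _
  have hle : ∀ (i : ι) (_ : i ∈ R) x, |dd i f x| ≤ m x := by
    intro i hi x
    exact le_ciSup (f := fun i : R => |dd (i : ι) f x|) (Set.finite_range _).bddAbove ⟨i, hi⟩
  -- one coordinate
  have hone : ∀ j, av (fun x => dd j f x ^ 2) ≤ 2 * av (fun x => |dd j f x| * m x) := by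
    intro j
    have h1 : ∀ x, (dd j f x ^ 2 + dd j f (flip {j} x) ^ 2) ≤
        2 * (|dd j f x| * m x + |dd j f (flip {j} x)| * m (flip {j} x)) := by
      intro x
      rw [dd_flip]
      have hpos := abs_nonneg (dd j f x)
      by_cases hc : x (dom j) = u j * x j
      · have h2 := (hdom j x hc).trans (hle _ (hdomR j) x)
        have h3 : |dd j f x| * |dd j f x| ≤ |dd j f x| * m x := mul_le_mul_of_nonneg_left h2 hpos
        have h4 : 0 ≤ |dd j f x| * m (flip {j} x) := mul_nonneg hpos (hm0 _)
        rw [abs_mul_abs_self, ← sq] at h3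
        linarith
      · have hne : dom j ≠ j := by
          intro h; rw [h, hu j h, one_mul] at hc; exact hc rfl
        have hc2 : flip {j} x (dom j) = u j * flip {j} x j := by
          have e1 : flip {j} x (dom j) = x (dom j) := by simp [flip, hne]
          have e2 : flip {j} x j = - x j := by simp [flip]
          rw [e1, e2]
          rcases sv_cases (x (dom j)) with h | h <;> rcases sv_cases (x j) with h' | h' <;>
            rcases sv_cases (u j) with h'' | h'' <;>
            rw [h, h', h''] at hc ⊢ <;> simp at hc ⊢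
        have h2 := (hdom j (flip {j} x) hc2).trans (hle _ (hdomR j) _)
        rw [dd_flip] at h2
        have h3 : |dd j f x| * |dd j f x| ≤ |dd j f x| * m (flip {j} x) :=
          mul_le_mul_of_nonneg_left h2 hpos
        have h4 : 0 ≤ |dd j f x| * m x := mul_nonneg hpos (hm0 _)
        rw [abs_mul_abs_self, ← sq] at h3
        linarith
    have h5 := av_mono h1
    rw [av_add (fun x => dd j f x ^ 2) (fun x => dd j f (flip {j} x) ^ 2),
      av_flip {j} (fun x => dd j f x ^ 2), av_mul,
      av_add (fun x => |dd j f x| * m x) (fun x => |dd j f (flip {j} x)| * m (flip {j} x)),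
      av_flip {j} (fun x => |dd j f x| * m x)] at h5
    linarith
  have hmain : variance f ≤ 4 * (d : ℝ) ^ 2 * supNorm f * av m := by
    calc variance f ≤ ∑ j, av (fun x => dd j f x ^ 2) := poincare f
      _ ≤ ∑ j, 2 * av (fun x => |dd j f x| * m x) := Finset.sum_le_sum fun j _ => hone j
      _ = 2 * av (fun x => (∑ j, |dd j f x|) * m x) := by
          rw [← Finset.mul_sum, ← av_sum]
          congr 2
          funext x
          rw [Finset.sum_mul]
      _ ≤ 2 * av (fun x => (2 * (d : ℝ) ^ 2 * supNorm f) * m x) := by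
          apply mul_le_mul_of_nonneg_left _ (by norm_num)
          apply av_mono
          intro x
          exact mul_le_mul_of_nonneg_right (sum_abs_dd_le f d hd' _ (le_supNorm f) x) (hm0 x)
      _ = _ := by rw [av_mul]; ring
  refine ⟨hmain, hmain.trans ?_⟩
  have hav : av m ≤ Real.sqrt R.card * maxDer f := by
    have h1 : av m ^ 2 ≤ (Real.sqrt R.card * maxDer f) ^ 2 := by
      have h2 := av_cs m (fun _ => (1 : ℝ))
      simp only [mul_one, one_pow] at h2
      rw [av_const (1 : ℝ), mul_one] at h2
      have h3 : av (fun x => m x ^ 2) ≤ ∑ i ∈ R, av (fun x => dd i f x ^ 2) := by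
        rw [← av_sum]
        apply av_mono
        intro x
        rcases R.eq_empty_or_nonempty with he | hne
        · subst he
          simp only [hm]
          rw [Real.iSup_of_isEmpty]
          simp
        · have : Nonempty R := ⟨⟨hne.choose, hne.choose_spec⟩⟩
          obtain ⟨i, hi⟩ := exists_eq_ciSup_of_finite (f := fun i : R => |dd (i : ι) f x|)
          have e : m x = |dd (i : ι) f x| := hi.symm
          rw [e, sq_abs]
          exact Finset.single_le_sum (f := fun i => dd i f x ^ 2) (fun _ _ => sq_nonneg _) i.2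
      have h4 : ∑ i ∈ R, av (fun x => dd i f x ^ 2) ≤ R.card * maxDer f ^ 2 := by
        calc ∑ i ∈ R, av (fun x => dd i f x ^ 2) ≤ ∑ i ∈ R, maxDer f ^ 2 := by
              refine Finset.sum_le_sum fun i _ => ?_
              have h5 := le_maxDer f i
              rwa [Real.sqrt_le_left hmo] at h5
          _ = _ := by rw [Finset.sum_const, nsmul_eq_mul]
      rw [mul_pow, Real.sq_sqrt (Nat.cast_nonneg _)]
      exact h2.trans (h3.trans h4)
    exact (abs_le_of_sq_le_sq' h1 (mul_nonneg (Real.sqrt_nonneg _) hmo)).2
  calc 4 * (d : ℝ) ^ 2 * supNorm f * av m ≤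
      4 * (d : ℝ) ^ 2 * supNorm f * (Real.sqrt R.card * maxDer f) :=
        mul_le_mul_of_nonneg_left hav (by positivity)
    _ = _ := by ring

/-- Monotone functions and desirability. -/
theorem desirable (f : (ι → ℤˣ) → ℝ)
    (hmono : ∀ x j, f (Function.update x j (-1)) ≤ f (Function.update x j 1)) (i j : ι)
    (hij : ∀ x : ι → ℤˣ, f (Function.update (Function.update x i (-1)) j 1) ≤
      f (Function.update (Function.update x i 1) j (-1))) (x : ι → ℤˣ) (h : x i = x j) :
    |dd j f x| ≤ |dd i f x| := by
  by_cases hne : i = j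
  · subst hne; exact le_rfl
  unfold dd
  rw [abs_of_nonneg (div_nonneg (sub_nonneg.2 (hmono x j)) (by norm_num)),
    abs_of_nonneg (div_nonneg (sub_nonneg.2 (hmono x i)) (by norm_num))]
  have h1 := hij x
  rcases sv_cases (x i) with hx | hx
  · have hj : x j = 1 := by rw [← h, hx]
    have e1 : Function.update x j 1 = x := by rw [← hj]; exact Function.update_eq_self j x
    have e2 : Function.update x i 1 = x := by rw [← hx]; exact Function.update_eq_self i x
    rw [Function.update_comm hne, e1] at h1
    rw [e2] at h1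
    rw [e1, e2]
    linarith
  · have hj : x j = -1 := by rw [← h, hx]
    have e1 : Function.update x j (-1) = x := by rw [← hj]; exact Function.update_eq_self j x
    have e2 : Function.update x i (-1) = x := by rw [← hx]; exact Function.update_eq_self i x
    rw [e2, Function.update_comm hne 1 (-1), e1] at h1
    rw [e1, e2]
    linarith

/-- Monotone functions of a linear form. -/
theorem mono_lin (a : ι → ℝ) (F : ℝ → ℝ) (hF : Monotone F) (f : (ι → ℤˣ) → ℝ)
    (hf : ∀ x, f x = F (∑ l, a l * sv (x l))) (i j : ι) (hij : |a j| ≤ |a i|) :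
    ∃ u : ℤˣ, (i = j → u = 1) ∧ ∀ x : ι → ℤˣ, x i = u * x j → |dd j f x| ≤ |dd i f x| := by
  set s : ι → ℤˣ := fun l => if 0 ≤ a l then 1 else -1 with hs
  have habs : ∀ l, a l = |a l| * sv (s l) := by
    intro l
    simp only [hs]
    by_cases h : 0 ≤ a l
    · rw [if_pos h, sv_one, abs_of_nonneg h, mul_one]
    · rw [if_neg h, sv_neg_one, abs_of_neg (not_le.1 h)]; ring
  refine ⟨s i * s j, ?_, ?_⟩
  · rintro rfl
    rcases sv_cases (s i) with h | h <;> rw [h] <;> simp
  · intro x hx
    by_cases hne : i = j
    · subst hne; exact le_rfl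
    -- values of the derivatives
    have hdd : ∀ l, |dd l f x| = (F (oth a l x + |a l|) - F (oth a l x - |a l|)) / 2 := by
      intro l
      unfold dd
      rw [hf, hf, lin_update, lin_update, sv_one, sv_neg_one, mul_one, mul_neg_one,
        ← sub_eq_add_neg, abs_div, abs_two]
      congr 1
      rcases le_total 0 (a l) with h | h
      · rw [abs_of_nonneg h, abs_of_nonneg]
        exact sub_nonneg.2 (hF (by linarith))
      · rw [abs_of_nonpos h, abs_of_nonpos]
        · rw [sub_neg_eq_add, ← sub_eq_add_neg]; ring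
        · exact sub_nonpos.2 (hF (by linarith))
    set e := sv (s i * x i) with he
    have he2 : sv (s j * x j) = e := by
      rw [he, hx]
      congr 1
      rcases sv_cases (s i) with h | h <;> rw [h] <;> simp
    have hsv : ∀ u v : ℤˣ, sv (u * v) = sv u * sv v := by
      intro u v
      rcases sv_cases u with h | h <;> rw [h] <;> simp [sv_neg]
    have hai : a i * sv (x i) = |a i| * e := by
      rw [he, hsv]
      conv_lhs => rw [habs i]
      ring
    have haj : a j * sv (x j) = |a j| * e := by
      rw [← he2, hsv]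
      conv_lhs => rw [habs j]
      ring
    set o := ∑ l ∈ (univ.erase i).erase j, a l * sv (x l) with ho
    have hoi : oth a i x = o + |a j| * e := by
      unfold oth
      rw [← Finset.sum_erase_add _ _ (Finset.mem_erase.2 ⟨Ne.symm hne, Finset.mem_univ j⟩), haj]
    have hoj : oth a j x = o + |a i| * e := by
      unfold oth
      rw [← Finset.sum_erase_add _ _ (Finset.mem_erase.2 ⟨hne, Finset.mem_univ i⟩), hai,
        Finset.erase_right_comm]
    rw [hdd, hdd, hoi, hoj]
    rcases sv_cases (s i * x i) with h | h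
    · have he1 : e = 1 := by rw [he, h, sv_one]
      rw [he1, mul_one, mul_one]
      have e1 : o + |a i| + |a j| = o + |a j| + |a i| := by ring
      have e2 : F (o + |a j| - |a i|) ≤ F (o + |a i| - |a j|) := hF (by linarith)
      rw [e1]
      linarith
    · have he1 : e = -1 := by rw [he, h, sv_neg_one]
      rw [he1, mul_neg_one, mul_neg_one]
      have e1 : o + -|a i| - |a j| = o + -|a j| - |a i| := by ring
      have e2 : F (o + -|a i| + |a j|) ≤ F (o + -|a j| + |a i|) := hF (by linarith)
      rw [e1]
      linarith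

theorem mono_lin_var (a : ι → ℝ) (F : ℝ → ℝ) (hF : Monotone F) (f : (ι → ℤˣ) → ℝ)
    (hf : ∀ x, f x = F (∑ l, a l * sv (x l))) (d : ℕ) (hd : DegLE f d) (i : ι)
    (hi : ∀ j, |a j| ≤ |a i|) :
    variance f ≤ 4 * (d : ℝ) ^ 2 * supNorm f * av (fun x => |dd i f x|) := by
  have h := (dominated f d hd {i} (by
    intro j
    obtain ⟨u, hu, h⟩ := mono_lin a F hF f hf i j (hi j)
    exact ⟨i, Finset.mem_singleton_self i, u, hu, h⟩)).1
  refine h.trans (le_of_eq ?_)
  congr 2
  funext x
  apply le_antisymm
  · apply Real.iSup_le _ (abs_nonneg _)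
    rintro ⟨l, hl⟩
    obtain rfl := Finset.mem_singleton.1 hl
    exact le_rfl
  · exact le_ciSup (f := fun l : ({i} : Finset ι) => |dd (l : ι) f x|) (Set.finite_range _).bddAbove
      ⟨i, Finset.mem_singleton_self i⟩

end Pool.Agent.Hp22AA
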