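import Mathlib
import Pool.Agent.Hp22AA.Main

/-!
The case of functions of `r`-uniform hypergraphs which are invariant under the permutations of
the vertices.
-/

set_option autoImplicit false
set_option linter.unusedSectionVars false

namespace Pool.Agent.Hp22AA

open Finset Pool.Agent.Hp22AAD

variable {V : Type} [Fintype V] [DecidableEq V]

theorem edgeMap_one {r : ℕ} (e : {e : Finset V // e.card = r}) : edgeMap 1 e = e := by
  apply Subtype.ext
  change e.1.map _ = e.1
  have : (1 : Equiv.Perm V).toEmbedding = Function.Embedding.refl V := rfl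
  rw [this, Finset.map_refl]

theorem edgeMap_mul {r : ℕ} (σ π : Equiv.Perm V) (e : {e : Finset V // e.card = r}) :
    edgeMap (σ * π) e = edgeMap σ (edgeMap π e) := by
  apply Subtype.ext
  change e.1.map _ = (e.1.map _).map _
  rw [Finset.map_map]
  rfl

/-- the action on the edges -/
def edgeHom (V : Type) [Fintype V] [DecidableEq V] (r : ℕ) :
    sortPerms (fun _ : V => ()) →* Equiv.Perm {e : Finset V // e.card = r} where
  toFun σ := {
    toFun := edgeMap (σ : Equiv.Perm V)
    invFun := edgeMap (σ : Equiv.Perm V)⁻¹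
    left_inv := fun e => by rw [← edgeMap_mul, inv_mul_cancel, edgeMap_one]
    right_inv := fun e => by rw [← edgeMap_mul, mul_inv_cancel, edgeMap_one] }
  map_one' := by
    ext1 e
    exact edgeMap_one e
  map_mul' := by
    intro σ π
    ext1 e
    exact edgeMap_mul (σ : Equiv.Perm V) (π : Equiv.Perm V) e

theorem exists_perm (A B : Finset V) (h : A.card = B.card) :
    ∃ σ : Equiv.Perm V, A.map σ.toEmbedding = B := by
  classical
  let e : {x // x ∈ A} ≃ {x // x ∈ B} := Finset.equivOfCardEq h
  refine ⟨e.extendSubtype, ?_⟩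
  apply Finset.eq_of_subset_of_card_le
  · intro v hv
    obtain ⟨w, hw, rfl⟩ := Finset.mem_map.1 hv
    exact e.extendSubtype_mem w hw
  · rw [Finset.card_map, h]

theorem hyper (r : ℕ) (f : ({e : Finset V // e.card = r} → ℤˣ) → ℝ)
    (hf : ∀ (σ : Equiv.Perm V) x, f (fun e => x (edgeMap σ e)) = f x) (d : ℕ) (hd : DegLE f d) :
    (∀ e x, |der e f x| ≤ (8 * ((r * d : ℕ) : ℝ) ^ 2 / Fintype.card V) ^ r * supNorm f) ∧
    variance f ≤ (8 * ((r * d : ℕ) : ℝ) ^ 2) ^ r * supNorm f * maxDerOne f := by
  have h1 : ∀ (σ : sortPerms (fun _ : V => ())) (e : {e : Finset V // e.card = r}),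
      (fun e : {e : Finset V // e.card = r} => e.1) (edgeHom V r σ e) =
        ((fun e : {e : Finset V // e.card = r} => e.1) e).image (σ : Equiv.Perm V) := by
    intro σ e
    change e.1.map _ = e.1.image _
    rw [Finset.map_eq_image]
    rfl
  have h2 : ∀ (σ : sortPerms (fun _ : V => ())) (e : {e : Finset V // e.card = r}),
      (∀ v ∈ (fun e : {e : Finset V // e.card = r} => e.1) e, (σ : Equiv.Perm V) v = v) →
        edgeHom V r σ e = e := by
    intro σ e h
    apply Subtype.ext
    change e.1.map _ = e.1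
    ext v
    rw [Finset.mem_map]
    constructor
    · rintro ⟨w, hw, rfl⟩
      have := h w hw
      change (σ : Equiv.Perm V) w ∈ e.1
      rwa [this]
    · intro hv
      exact ⟨v, hv, h v hv⟩
  have hr : ∀ e : {e : Finset V // e.card = r},
      ((fun e : {e : Finset V // e.card = r} => e.1) e).card ≤ r := fun e => e.2.le
  have hf' : ∀ (σ : sortPerms (fun _ : V => ())) x,
      f (fun e => x (edgeHom V r σ e)) = f x := fun σ x => hf (σ : Equiv.Perm V) x
  refine ⟨?_, ?_⟩
  · intro e x
    have h := flat h1 h2 r hr f hf' d hd e x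
    refine h.trans (le_of_eq ?_)
    congr 1
    have h3 : ∀ q ∈ e.1, (8 * ((r * d : ℕ) : ℝ) ^ 2 / (cls (fun _ : V => ()) q).card) =
        8 * ((r * d : ℕ) : ℝ) ^ 2 / Fintype.card V := by
      intro q _
      have : cls (fun _ : V => ()) q = univ := by
        ext v; simp [cls]
      rw [this, Finset.card_univ]
    rw [Finset.prod_congr rfl h3, Finset.prod_const, e.2]
  · have h := var_bound h1 h2 r hr 1 (fun _ => 0) (by
      intro i j _
      obtain ⟨σ, hσ⟩ := exists_perm i.1 j.1 (by rw [i.2, j.2])
      exact ⟨⟨σ, fun _ => rfl⟩, Subtype.ext hσ⟩) f hf' d hd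
    rwa [Nat.cast_one, one_mul] at h

end Pool.Agent.Hp22AA
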